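import Mathlib

set_option autoImplicit false

universe u v

namespace Pool.Agent.Results.MP_22d4f2_al.KrullTwoSided

open MulOpposite Filter

/-- A module is uniserial if its submodules are totally ordered by inclusion. -/
def IsUniserial (R M : Type*) [Ring R] [AddCommGroup M] [Module R M] : Prop :=
  ∀ A B : Submodule R M, A ≤ B ∨ B ≤ A

/-- The module `M` is a finite (internal) direct sum of uniserial submodules. -/
def IsSerialModule (R M : Type*) [Ring R] [AddCommGroup M] [Module R M] : Prop :=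
  ∃ (n : ℕ) (A : Fin n → Submodule R M), DirectSum.IsInternal A ∧ ∀ i, IsUniserial R (A i)

/-- A ring `R` is serial if both the left module `R` and the right module `R` (a module over
`Rᵐᵒᵖ`) are finite direct sums of uniserial modules. -/
def IsSerialRing (R : Type u) [Ring R] : Prop :=
  IsSerialModule Rᵐᵒᵖ R ∧ IsSerialModule R R

/-- The finite system of linear equations `∑ᵢ yᵢ Hᵢⱼ = aⱼ` over the right module `M` has a
solution `y` in `M`. -/
def Solv {R : Type u} [Ring R] {M : Type*} [AddCommGroup M] [Module Rᵐᵒᵖ M]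
    {ι κ : Type*} [Fintype ι] (H : ι → κ → R) (a : κ → M) : Prop :=
  ∃ y : ι → M, ∀ j, ∑ i, op (H i j) • y i = a j

/-- Pure embeddings of right modules: injective maps `f : A → B` such that every finite system
of linear equations with constants in `A` that is solvable in `B` is solvable in `A`. -/
def IsPureEmbedding {R : Type u} [Ring R] {A B : Type u} [AddCommGroup A] [Module Rᵐᵒᵖ A]
    [AddCommGroup B] [Module Rᵐᵒᵖ B] (f : A →ₗ[Rᵐᵒᵖ] B) : Prop :=
  Function.Injective f ∧ ∀ (m n : ℕ) (H : Fin m → Fin n → R) (a : Fin n → A),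
    Solv H (fun j => f (a j)) → Solv H a

/-- A right module is pure-injective if it is injective with respect to pure embeddings. -/
def IsPureInjective (R : Type u) [Ring R] (M : Type u) [AddCommGroup M] [Module Rᵐᵒᵖ M] : Prop :=
  ∀ (A B : Type u) [AddCommGroup A] [Module Rᵐᵒᵖ A] [AddCommGroup B] [Module Rᵐᵒᵖ B]
    (f : A →ₗ[Rᵐᵒᵖ] B), IsPureEmbedding f → ∀ g : A →ₗ[Rᵐᵒᵖ] M,
      ∃ h : B →ₗ[Rᵐᵒᵖ] M, ∀ a, h (f a) = g a

/-- A module is indecomposable if it is nonzero and is not the direct sum of two nonzero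
submodules. -/
def IsIndecomposable (R M : Type*) [Ring R] [AddCommGroup M] [Module R M] : Prop :=
  Nontrivial M ∧ ∀ A B : Submodule R M, IsCompl A B → A = ⊥ ∨ B = ⊥

/-- A module is superdecomposable if it is nonzero and has no indecomposable direct summand. -/
def IsSuperdecomposable (R M : Type*) [Ring R] [AddCommGroup M] [Module R M] : Prop :=
  Nontrivial M ∧ ∀ A B : Submodule R M, IsCompl A B → ¬ IsIndecomposable R A

/-- `KdimLE α a b`: the interval `[a, b]` of a poset has Krull dimension (deviation) `≤ α`: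
for every descending chain in `[a, b]` all but finitely many of the intervals
`[c (i + 1), c i]` have Krull dimension `< α`, that is, they are trivial (Krull dimension `-1`)
or have Krull dimension `≤ β` for some ordinal `β < α`. -/
def KdimLE {L : Type u} [PartialOrder L] (α : Ordinal.{u}) (a b : L) : Prop :=
  ∀ c : ℕ → L, Antitone c → (∀ i, a ≤ c i ∧ c i ≤ b) → ∃ N, ∀ i ≥ N,
    c (i + 1) = c i ∨ ∃ β, ∃ _ : β < α, KdimLE β (c (i + 1)) (c i)
termination_by α

/-- A bounded poset has Krull dimension if its Krull dimension is `≤ α` for some ordinal `α`. -/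
def HasKrullDim (L : Type u) [PartialOrder L] [BoundedOrder L] : Prop :=
  ∃ α : Ordinal.{u}, KdimLE α (⊥ : L) ⊤

/-- Ellis: minimal left ideals in closed monoids of self-maps of a compact Hausdorff space. -/
theorem ellis {X : Type*} [TopologicalSpace X] [CompactSpace X] [T2Space X]
    (M : Set (X → X)) (hMc : IsClosed M) (hMm : ∀ f ∈ M, ∀ g ∈ M, f ∘ g ∈ M)
    (C : Set (X → X)) (hCM : C ⊆ M) (hCc : IsClosed C) (hCn : C.Nonempty)
    (hCl : ∀ m ∈ M, ∀ c ∈ C, m ∘ c ∈ C) :
    ∃ e ∈ C, e ∘ e = e ∧ ∀ m ∈ M, ∀ h ∈ M, ∃ g ∈ M, g ∘ h ∘ m ∘ e = m ∘ e := by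
  classical
  have hcont : ∀ r : X → X, Continuous (fun f : X → X => f ∘ r) := by
    intro r
    exact continuous_pi fun x => continuous_apply (r x)
  let S : Set (Set (X → X)) :=
    {N | IsClosed N ∧ N.Nonempty ∧ N ⊆ C ∧ ∀ m ∈ M, ∀ c ∈ N, m ∘ c ∈ N}
  have hCS : C ∈ S := ⟨hCc, hCn, subset_rfl, hCl⟩
  obtain ⟨N, hNC, hN⟩ : ∃ N', N' ⊆ C ∧ Minimal (· ∈ S) N' := by
    refine zorn_superset_nonempty S ?_ C hCS
    intro c hcs hc hcn
    refine ⟨⋂₀ c, ⟨isClosed_sInter fun t ht => (hcs ht).1, ?_, ?_, ?_⟩, fun s hs =>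
      Set.sInter_subset_of_mem hs⟩
    · convert!
        @IsCompact.nonempty_iInter_of_directed_nonempty_isCompact_isClosed _ _ _ hcn.coe_sort
          ((↑) : c → Set (X → X)) ?_ ?_ ?_ ?_
      · exact Set.sInter_eq_iInter
      · refine DirectedOn.directed_val (IsChain.directedOn hc.symm)
      exacts [fun i => (hcs i.prop).2.1, fun i => (hcs i.prop).1.isCompact,
        fun i => (hcs i.prop).1]
    · obtain ⟨t, ht⟩ := hcn
      exact (Set.sInter_subset_of_mem ht).trans (hcs ht).2.2.1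
    · intro m hm x hx
      rw [Set.mem_sInter] at hx ⊢
      exact fun t ht => (hcs ht).2.2.2 m hm x (hx t ht)
  have hNS : N ∈ S := hN.prop
  obtain ⟨hNcl, hNn, _, hNl⟩ := hNS
  -- every element generates N
  have hgen : ∀ c ∈ N, (fun f : X → X => f ∘ c) '' M = N := by
    intro c hc
    apply hN.eq_of_subset
    · refine ⟨?_, ?_, ?_, ?_⟩
      · exact (hcont c).isClosedMap _ hMc
      · exact ⟨_, c, hCM (hNC hc), rfl⟩
      · rintro _ ⟨f, hf, rfl⟩
        exact hNC (hNl f hf c hc)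
      · rintro m hm _ ⟨f, hf, rfl⟩
        exact ⟨m ∘ f, hMm m hm f hf, rfl⟩
    · rintro _ ⟨f, hf, rfl⟩
      exact hNl f hf c hc
  let : Semigroup (X → X) := { mul := fun f g => f ∘ g, mul_assoc := fun _ _ _ => rfl }
  obtain ⟨e, heN, hee⟩ := exists_idempotent_in_compact_subsemigroup (M := X → X) hcont N hNn
    hNcl.isCompact (fun x hx y hy => hNl x (hCM (hNC hx)) y hy)
  refine ⟨e, hNC heN, hee, ?_⟩
  intro m hm h hh
  have h1 : m ∘ e ∈ N := hNl m hm e heN
  have h2 : h ∘ m ∘ e ∈ N := hNl h hh _ h1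
  have h3 := hgen _ h2
  rw [← h3] at h1
  obtain ⟨g, hg, hge⟩ := h1
  exact ⟨g, hg, hge⟩

section
variable {S : Type u} [Ring S]

theorem Solv.equiv {B : Type*} [AddCommGroup B] [Module Sᵐᵒᵖ B] {ι κ ι' κ' : Type*} [Fintype ι]
    [Fintype ι'] (e : ι' ≃ ι) (e' : κ' ≃ κ)
    (H : ι → κ → S) (a : κ → B) :
    Solv (fun i j => H (e i) (e' j)) (fun j => a (e' j)) ↔ Solv H a := by
  constructor
  · rintro ⟨y, hy⟩
    refine ⟨fun i => y (e.symm i), fun j => ?_⟩
    have := hy (e'.symm j)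
    simp only [Equiv.apply_symm_apply] at this
    rw [← this]
    refine (Equiv.sum_comp e.symm (fun i => op (H (e i) j) • y i)).symm.trans ?_ |>.symm
    simp
  · rintro ⟨y, hy⟩
    refine ⟨fun i => y (e i), fun j => ?_⟩
    change _ = a (e' j)
    rw [← hy]
    exact Equiv.sum_comp e (fun i => op (H i (e' j)) • y i)

theorem extend {P : Type*} [AddCommGroup P] [Module Sᵐᵒᵖ P] [TopologicalSpace P]
    [IsTopologicalAddGroup P] [CompactSpace P] [T2Space P]
    (hc : ∀ s : Sᵐᵒᵖ, Continuous fun p : P => s • p)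
    {A B : Type*} [AddCommGroup A] [Module Sᵐᵒᵖ A] [AddCommGroup B] [Module Sᵐᵒᵖ B]
    (f : A →ₗ[Sᵐᵒᵖ] B) (h : A →ₗ[Sᵐᵒᵖ] P)
    (hyp : ∀ (m n : ℕ) (H : Fin m → Fin n → S) (a : Fin n → A),
      Solv H (fun j => f (a j)) → Solv H (fun j => h (a j))) :
    ∃ g : B →ₗ[Sᵐᵒᵖ] P, ∀ a, g (f a) = h a := by
  classical
  have hyp' : ∀ (ι κ : Type _) [Fintype ι] [Fintype κ] (H : ι → κ → S) (a : κ → A),
      Solv H (fun j => f (a j)) → Solv H (fun j => h (a j)) := by
    intro ι κ _ _ H a hs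
    have e := (Fintype.equivFin ι).symm
    have e' := (Fintype.equivFin κ).symm
    have h1 := hyp _ _ (fun i j => H (e i) (e' j)) (fun j => a (e' j))
      ((Solv.equiv e e' H (fun j => f (a j))).2 hs)
    exact (Solv.equiv e e' H (fun j => h (a j))).1 h1
  let E : Set ((B →₀ S) × A) := {q | q.1.sum (fun b s => op s • b) = f q.2}
  let K : E → Set (B → P) := fun q => {g | q.1.1.sum (fun b s => op s • g b) = h q.1.2}
  have hK : (⋂ q, K q).Nonempty := by
    apply CompactSpace.iInter_nonempty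
    · intro q
      apply isClosed_eq
      · unfold Finsupp.sum
        apply continuous_finsetSum
        intro b _
        exact (hc _).comp (continuous_apply b)
      · exact continuous_const
    · intro t
      -- finite support
      let F : Finset B := t.sup (fun q => q.1.1.support)
      obtain ⟨y, hy⟩ := hyp' F t (fun b q => q.1.1.1 b.1) (fun q => q.1.1.2) (by
        refine ⟨fun b => b.1, fun q => ?_⟩
        have h1 : q.1.1.1.sum (fun b s => op s • b) = f q.1.1.2 := q.1.2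
        have h2 : q.1.1.1.support ⊆ F :=
          Finset.le_sup (f := fun q : E => q.1.1.support) q.2
        rw [Finsupp.sum_of_support_subset _ h2 _ (by simp)] at h1
        change _ = f q.1.1.2
        rw [← h1]
        exact Finset.sum_coe_sort F (fun b => op (q.1.1.1 b) • b))
      refine ⟨fun b => if hb : b ∈ F then y ⟨b, hb⟩ else 0, ?_⟩
      simp only [Set.mem_iInter]
      intro q hq
      have h2 : q.1.1.support ⊆ F :=
        Finset.le_sup (f := fun q : E => q.1.1.support) hq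
      change q.1.1.sum _ = h q.1.2
      rw [Finsupp.sum_of_support_subset _ h2 _ (by simp)]
      refine Eq.trans ?_ (hy ⟨q, hq⟩)
      rw [← Finset.sum_coe_sort F]
      apply Finset.sum_congr rfl
      intro b _
      simp
  obtain ⟨g, hg⟩ := hK
  simp only [Set.mem_iInter] at hg
  have hg' : ∀ (ℓ : B →₀ S) (a : A), ℓ.sum (fun b s => op s • b) = f a →
      ℓ.sum (fun b s => op s • g b) = h a := fun ℓ a hq => hg ⟨(ℓ, a), hq⟩
  refine ⟨{ toFun := g, map_add' := ?_, map_smul' := ?_ }, ?_⟩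
  · intro b b'
    have h1 := hg' (Finsupp.single (b + b') 1 - Finsupp.single b 1 - Finsupp.single b' 1) 0 (by
      rw [Finsupp.sum_sub_index (by intros; simp [sub_smul]),
        Finsupp.sum_sub_index (by intros; simp [sub_smul])]
      simp)
    rw [Finsupp.sum_sub_index (by intros; simp [sub_smul]),
        Finsupp.sum_sub_index (by intros; simp [sub_smul])] at h1
    simp only [op_zero, zero_smul, Finsupp.sum_single_index, op_one, one_smul, map_zero] at h1
    rw [sub_sub, sub_eq_zero] at h1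
    exact h1
  · intro s b
    have h1 := hg' (Finsupp.single (s • b) 1 - Finsupp.single b s.unop) 0 (by
      rw [Finsupp.sum_sub_index (by intros; simp [sub_smul])]
      simp)
    rw [Finsupp.sum_sub_index (by intros; simp [sub_smul])] at h1
    simp only [op_zero, zero_smul, Finsupp.sum_single_index, op_one, one_smul, map_zero,
      op_unop] at h1
    rw [sub_eq_zero] at h1
    exact h1
  · intro a
    have h1 := hg' (Finsupp.single (f a) 1) a (by simp)
    simpa using h1

end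

section
variable {S : Type u} [Ring S]

theorem Solv.congr {B : Type*} [AddCommGroup B] [Module Sᵐᵒᵖ B] {ι κ : Type*} [Fintype ι]
    {H : ι → κ → S} {a b : κ → B} (ha : Solv H a) (h : ∀ j, b j = a j) : Solv H b := by
  obtain ⟨y, hy⟩ := ha
  exact ⟨y, fun j => (hy j).trans (h j).symm⟩

theorem Solv.zero {B : Type*} [AddCommGroup B] [Module Sᵐᵒᵖ B] {ι κ : Type*} [Fintype ι]
    (H : ι → κ → S) : Solv H (fun _ => (0 : B)) :=
  ⟨fun _ => 0, fun j => by simp⟩

theorem Solv.add {B : Type*} [AddCommGroup B] [Module Sᵐᵒᵖ B] {ι κ : Type*} [Fintype ι]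
    {H : ι → κ → S} {a b : κ → B} (ha : Solv H a) (hb : Solv H b) :
    Solv H (fun j => a j + b j) := by
  obtain ⟨y, hy⟩ := ha
  obtain ⟨y', hy'⟩ := hb
  refine ⟨fun i => y i + y' i, fun j => ?_⟩
  simp only [smul_add, Finset.sum_add_distrib, hy, hy']

theorem Solv.neg {B : Type*} [AddCommGroup B] [Module Sᵐᵒᵖ B] {ι κ : Type*} [Fintype ι]
    {H : ι → κ → S} {a : κ → B} (ha : Solv H a) :
    Solv H (fun j => - a j) := by
  obtain ⟨y, hy⟩ := ha
  refine ⟨fun i => - y i, fun j => ?_⟩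
  simp only [smul_neg, Finset.sum_neg_distrib, hy]

theorem Solv.map {B C : Type*} [AddCommGroup B] [Module Sᵐᵒᵖ B] [AddCommGroup C] [Module Sᵐᵒᵖ C]
    {ι κ : Type*} [Fintype ι] {H : ι → κ → S} {a : κ → B} (ha : Solv H a) (g : B →ₗ[Sᵐᵒᵖ] C) :
    Solv H (fun j => g (a j)) := by
  obtain ⟨y, hy⟩ := ha
  refine ⟨fun i => g (y i), fun j => ?_⟩
  simp only [← map_smul, ← map_sum, hy]

variable {P : Type v} [AddCommGroup P] [Module Sᵐᵒᵖ P]

/-- linear self-maps as functions -/
def Lin (S : Type u) [Ring S] (P : Type v) [AddCommGroup P] [Module Sᵐᵒᵖ P] : Set (P → P) :=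
  {g | (∀ x y, g (x + y) = g x + g y) ∧ ∀ (s : Sᵐᵒᵖ) x, g (s • x) = s • g x}

def toLin {g : P → P} (hg : g ∈ Lin S P) : P →ₗ[Sᵐᵒᵖ] P where
  toFun := g
  map_add' := hg.1
  map_smul' := hg.2

theorem lin_coe (g : P →ₗ[Sᵐᵒᵖ] P) : ⇑g ∈ Lin S P := ⟨map_add g, map_smul g⟩

def MM {m n : ℕ} (H : Fin m → Fin n → S) (w : Fin n → P) : Set (P → P) :=
  {g | g ∈ Lin S P ∧ Solv H (fun j => g (w j) - w j)}

theorem MM_comp {m n : ℕ} (H : Fin m → Fin n → S) (w : Fin n → P) :
    ∀ f ∈ MM H w, ∀ g ∈ MM H w, f ∘ g ∈ MM H w := by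
  rintro f ⟨hf, hf'⟩ g ⟨hg, hg'⟩
  refine ⟨⟨fun x y => ?_, fun s x => ?_⟩, ?_⟩
  · simp [hg.1, hf.1]
  · simp [hg.2, hf.2]
  · have h1 := hg'.map (toLin hf)
    have h2 := h1.add hf'
    refine h2.congr fun j => ?_
    simp only [map_sub]
    change f (g (w j)) - w j = f (g (w j)) - f (w j) + (f (w j) - w j)
    abel

variable [TopologicalSpace P] [IsTopologicalAddGroup P] [CompactSpace P] [T2Space P]

omit [CompactSpace P] in
theorem isClosed_Lin (hc : ∀ s : Sᵐᵒᵖ, Continuous fun p : P => s • p) : IsClosed (Lin S P) := by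
  have : Lin S P = (⋂ x : P, ⋂ y : P, {g : P → P | g (x + y) = g x + g y}) ∩
      ⋂ s : Sᵐᵒᵖ, ⋂ x : P, {g : P → P | g (s • x) = s • g x} := by
    ext g
    simp [Lin]
  rw [this]
  apply IsClosed.inter
  · refine isClosed_iInter fun x => isClosed_iInter fun y => ?_
    exact isClosed_eq (continuous_apply _) ((continuous_apply x).add (continuous_apply y))
  · refine isClosed_iInter fun x => isClosed_iInter fun y => ?_
    exact isClosed_eq (continuous_apply _) ((hc _).comp (continuous_apply _))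

theorem isClosed_MM (hc : ∀ s : Sᵐᵒᵖ, Continuous fun p : P => s • p) {m n : ℕ}
    (H : Fin m → Fin n → S) (w : Fin n → P) : IsClosed (MM H w) := by
  have h1 : IsClosed {a : Fin n → P | Solv H a} := by
    have : {a : Fin n → P | Solv H a} =
        Set.range (fun y : Fin m → P => fun j => ∑ i, op (H i j) • y i) := by
      ext a
      simp only [Solv, Set.mem_ofPred_eq, Set.mem_range]
      constructor
      · rintro ⟨y, hy⟩
        exact ⟨y, funext hy⟩
      · rintro ⟨y, hy⟩
        exact ⟨y, fun j => congrFun hy j⟩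
    rw [this]
    apply IsCompact.isClosed
    apply isCompact_range
    apply continuous_pi
    intro j
    apply continuous_finsetSum
    intro i _
    exact (hc _).comp (continuous_apply i)
  have h2 : MM H w = Lin S P ∩ (fun g : P → P => fun j => g (w j) - w j) ⁻¹'
      {a : Fin n → P | Solv H a} := rfl
  rw [h2]
  apply (isClosed_Lin hc).inter
  apply h1.preimage
  apply continuous_pi
  intro j
  exact (continuous_apply _).sub continuous_const

/-- The core: a splitting property of the type of `z` yields a summand with no indecomposable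
summand. -/
theorem core (hc : ∀ s : Sᵐᵒᵖ, Continuous fun p : P => s • p) (z : P)
    (hSD : ∀ (m n : ℕ) (H : Fin m → Fin n → S) (b : Fin n → S),
      ¬ Solv H (fun j => op (b j) • z) →
      ∃ (f1 f2 : P →ₗ[Sᵐᵒᵖ] P) (α β : AddSubgroup P), (∀ x, f1 x + f2 x = x) ∧
        (∀ g : P →ₗ[Sᵐᵒᵖ] P, ∀ x ∈ α, g x ∈ α) ∧ (∀ g : P →ₗ[Sᵐᵒᵖ] P, ∀ x ∈ β, g x ∈ β) ∧
        f1 z ∈ α ∧ f2 z ∈ β ∧
        (∀ x y, Solv H (fun j => op (b j) • x) → y ∈ α → x + y ≠ z) ∧
        (∀ x y, Solv H (fun j => op (b j) • x) → y ∈ β → x + y ≠ z)) :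
    ∃ e : P →ₗ[Sᵐᵒᵖ] P, e ∘ₗ e = e ∧ e z = z ∧ ∀ e1 : P →ₗ[Sᵐᵒᵖ] P, e1 ∘ₗ e1 = e1 →
      e ∘ₗ e1 = e1 → e1 ∘ₗ e = e1 → e1 ≠ 0 →
      ∃ q : P →ₗ[Sᵐᵒᵖ] P, q ∘ₗ q = q ∧ e1 ∘ₗ q = q ∧ q ∘ₗ e1 = q ∧ q ≠ 0 ∧ q ≠ e1 := by
  classical
  -- first Ellis
  let H0 : Fin 0 → Fin 1 → S := fun _ _ => 0
  have hM0 : ∀ g : P → P, g ∈ MM H0 (fun _ => z) ↔ g ∈ Lin S P ∧ g z = z := by
    intro g
    simp only [MM, Solv, Set.mem_ofPred_eq, Finset.univ_eq_empty, Finset.sum_empty, exists_const]
    constructor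
    · rintro ⟨h1, h2⟩
      exact ⟨h1, (sub_eq_zero.1 (h2 0).symm)⟩
    · rintro ⟨h1, h2⟩
      exact ⟨h1, fun _ => (sub_eq_zero.2 h2).symm⟩
  obtain ⟨e', he'M, hee, hmin⟩ := ellis (MM H0 (fun _ => z)) (isClosed_MM hc H0 _)
    (MM_comp H0 _) (MM H0 (fun _ => z)) subset_rfl (isClosed_MM hc H0 _)
    ⟨id, (hM0 id).2 ⟨lin_coe LinearMap.id, rfl⟩⟩ (MM_comp H0 _)
  have he' := (hM0 e').1 he'M
  refine ⟨toLin he'.1, ?_, he'.2, ?_⟩
  · ext x
    exact congrFun hee x
  intro e1 h11 he1 h1e h1ne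
  set e : P →ₗ[Sᵐᵒᵖ] P := toLin he'.1 with hedef
  have hecoe : ⇑e = e' := rfl
  have hez : e z = z := he'.2
  by_contra hcon
  have hind : ∀ q : P →ₗ[Sᵐᵒᵖ] P, q ∘ₗ q = q → e1 ∘ₗ q = q → q ∘ₗ e1 = q → q = 0 ∨ q = e1 := by
    intro q h1 h2 h3
    by_contra h4
    rw [not_or] at h4
    exact hcon ⟨q, h1, h2, h3, h4.1, h4.2⟩
  have p11 : ∀ x, e1 (e1 x) = e1 x := fun x => LinearMap.congr_fun h11 x
  have pe1 : ∀ x, e (e1 x) = e1 x := fun x => LinearMap.congr_fun he1 x
  have p1e : ∀ x, e1 (e x) = e1 x := fun x => LinearMap.congr_fun h1e x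
  set z1 := e1 z with hz1
  set z2 := e z - e1 z with hz2
  have hzz : z1 + z2 = z := by rw [hz1, hz2, hez]; abel
  -- Claim 1
  obtain ⟨m, n, H, b, hψ2, hψ⟩ : ∃ (m n : ℕ) (H : Fin m → Fin n → S) (b : Fin n → S),
      Solv H (fun j => op (b j) • z2) ∧ ¬ Solv H (fun j => op (b j) • z) := by
    by_contra hno
    push Not at hno
    obtain ⟨g, hg⟩ := extend hc (A := Sᵐᵒᵖ) (B := P) (LinearMap.toSpanSingleton Sᵐᵒᵖ P z2)
      (LinearMap.toSpanSingleton Sᵐᵒᵖ P z) (by
        intro m n H a hs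
        have := hno m n H (fun j => unop (a j))
        simp only [op_unop] at this
        exact this hs)
    have hg1 : g z2 = z := by
      have := hg 1
      simpa using this
    let h : P →ₗ[Sᵐᵒᵖ] P := g ∘ₗ (e - e1)
    have hhz : h z = z := hg1
    obtain ⟨g', _, hg'⟩ := hmin id ((hM0 id).2 ⟨lin_coe LinearMap.id, rfl⟩) h
      ((hM0 h).2 ⟨lin_coe h, hhz⟩)
    apply h1ne
    ext x
    have h1 := congrFun hg' (e1 x)
    simp only [Function.comp_apply, id] at h1
    rw [← hecoe, pe1] at h1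
    have h2 : h (e1 x) = 0 := by
      change g ((e - e1) (e1 x)) = 0
      rw [LinearMap.sub_apply, pe1, p11, sub_self, map_zero]
    rw [h2] at h1
    have h3 : g' 0 = 0 := by
      rename_i hgM
      have := ((hM0 g').1 hgM).1
      exact map_zero (toLin this)
    rw [h3] at h1
    rw [← h1]
    rfl
  obtain ⟨f1, f2, α, β, hf, hα, hβ, hfα, hfβ, hnα, hnβ⟩ := hSD m n H b hψ
  -- Claim 3
  have key : ∀ (f : P →ₗ[Sᵐᵒᵖ] P) (γ : AddSubgroup P), (∀ g : P →ₗ[Sᵐᵒᵖ] P, ∀ x ∈ γ, g x ∈ γ) →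
      f z ∈ γ → (∀ x y, Solv H (fun j => op (b j) • x) → y ∈ γ → x + y ≠ z) →
      ∀ L : P →ₗ[Sᵐᵒᵖ] P, (∀ x, L (e1 (f (e1 x))) = e1 x) → False := by
    intro f γ hγ hfz hno L hL
    have h1 : L (e1 (f z1)) = z1 := by
      have := hL z
      exact this
    have h2 : f z1 = f z - f z2 := by
      rw [← map_sub]
      congr 1
      rw [← hzz]
      abel
    rw [h2, map_sub, map_sub] at h1
    have h3 : L (e1 (f z)) ∈ γ := hγ L _ (hγ e1 _ hfz)
    have h4 : Solv H (fun j => op (b j) • L (e1 (f z2))) := by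
      have := ((hψ2.map f).map e1).map L
      simpa only [map_smul] using this
    have h5 : Solv H (fun j => op (b j) • (z2 - L (e1 (f z2)))) := by
      have := hψ2.add h4.neg
      simpa only [sub_eq_add_neg, smul_add, smul_neg] using this
    apply hno _ _ h5 h3
    calc z2 - L (e1 (f z2)) + L (e1 (f z)) = (L (e1 (f z)) - L (e1 (f z2))) + z2 := by abel
      _ = z := by rw [h1, hzz]
  have claim2 : (∃ L : P →ₗ[Sᵐᵒᵖ] P, ∀ x, L (e1 (f1 (e1 x))) = e1 x) ∨
      (∃ L : P →ₗ[Sᵐᵒᵖ] P, ∀ x, L (e1 (f2 (e1 x))) = e1 x) := by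
    by_cases hA : ∀ (m n : ℕ) (H : Fin m → Fin n → S) (a : Fin n → LinearMap.range e1),
        Solv H (fun j => e1 (f1 (a j))) → Solv H (fun j => (a j : P))
    · left
      obtain ⟨L, hL⟩ := extend hc (e1 ∘ₗ f1 ∘ₗ (LinearMap.range e1).subtype)
        (LinearMap.range e1).subtype (by
          intro m n H a hs
          exact hA m n H a hs)
      refine ⟨L, fun x => ?_⟩
      exact hL ⟨e1 x, ⟨x, rfl⟩⟩
    · right
      push Not at hA
      obtain ⟨m', n', H', a, ha, hna⟩ := hA
      have hea : ∀ j, e1 (a j) = a j := by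
        intro j
        obtain ⟨x, hx⟩ := (a j).2
        rw [← hx, p11]
      let w : Fin n' → P := fun j => a j
      have he1M : ⇑e1 ∈ MM H' w := by
        refine ⟨lin_coe e1, ?_⟩
        exact (Solv.zero H').congr fun j => sub_eq_zero.2 (hea j)
      have hk2M : ⇑(e1 ∘ₗ f2 ∘ₗ e1) ∈ MM H' w := by
        refine ⟨lin_coe _, ?_⟩
        refine ha.neg.congr fun j => ?_
        have h2 := congrArg e1 (hf (a j))
        rw [map_add, hea] at h2
        calc e1 (f2 (e1 (a j))) - a j
            = e1 (f2 (a j)) - (e1 (f1 (a j)) + e1 (f2 (a j))) := by rw [h2, hea]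
          _ = - e1 (f1 (a j)) := by abel
      have hcont : Continuous (fun f : P → P => f ∘ e1) :=
        continuous_pi fun x => continuous_apply (e1 x)
      obtain ⟨e0, he0C, he00, hmin'⟩ := ellis (MM H' w) (isClosed_MM hc H' w) (MM_comp H' w)
        ((fun f : P → P => f ∘ e1) '' MM H' w)
        (by rintro _ ⟨f, hf, rfl⟩; exact MM_comp H' w f hf _ he1M)
        (hcont.isClosedMap _ (isClosed_MM hc H' w))
        ⟨_, e1, he1M, rfl⟩
        (by
          rintro g hg _ ⟨f, hf, rfl⟩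
          exact ⟨g ∘ f, MM_comp H' w g hg f hf, rfl⟩)
      obtain ⟨g0, hg0, rfl⟩ := he0C
      have he0M : g0 ∘ e1 ∈ MM H' w := MM_comp H' w _ hg0 _ he1M
      have hqM : e1 ∘ (g0 ∘ e1) ∈ MM H' w := MM_comp H' w _ he1M _ he0M
      let q : P →ₗ[Sᵐᵒᵖ] P := toLin hqM.1
      have hq : ∀ x, q x = e1 (g0 (e1 x)) := fun x => rfl
      have h00 : ∀ x, g0 (e1 (g0 (e1 x))) = g0 (e1 x) := fun x => congrFun he00 x
      rcases hind q (by ext x; simp only [LinearMap.comp_apply, hq, p11, h00])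
        (by ext x; simp only [LinearMap.comp_apply, hq, p11])
        (by ext x; simp only [LinearMap.comp_apply, hq, p11]) with h0 | h1
      · exfalso
        apply hna
        have h2 := hqM.2.neg
        refine h2.congr fun j => ?_
        have h3 : q (w j) = 0 := by rw [h0]; rfl
        change (a j : P) = -(q (w j) - w j)
        rw [h3]
        simp [w]
      · obtain ⟨g, hgM, hg⟩ := hmin' e1 he1M _ hk2M
        refine ⟨toLin hgM.1, fun x => ?_⟩
        have h2 := congrFun hg x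
        simp only [Function.comp_apply, LinearMap.comp_apply] at h2
        have h3 : e1 (g0 (e1 x)) = e1 x := by rw [← hq, h1]
        rw [h3, p11] at h2
        exact h2
  rcases claim2 with ⟨L, hL⟩ | ⟨L, hL⟩
  · exact key f1 α hα hfα hnα L hL
  · exact key f2 β hβ hfβ hnβ L hL

end


section normal

variable {S : Type u} [Ring S]

/-- divisibility condition `d ∣ ∑ vᵢ wᵢ`. -/
def Hold {n : ℕ} (c : (Fin n → S) × S) (M : Type u) [AddCommGroup M] [Module Sᵐᵒᵖ M]
    (v : Fin n → M) : Prop :=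
  ∃ z : M, ∑ i, op (c.1 i) • v i = op c.2 • z

def HoldY {n : ℕ} (c : (Fin n → S) × S × S) (M : Type u) [AddCommGroup M] [Module Sᵐᵒᵖ M]
    (v : Fin n → M) (y : M) : Prop :=
  ∃ z : M, ∑ i, op (c.1 i) • v i + op c.2.1 • y = op c.2.2 • z

theorem exists_max_right (hr : ∀ a b : S, (∃ t, a = b * t) ∨ ∃ t, b = a * t)
    {T : Type u} (f : T → S) (l : List T) (hl : l ≠ []) :
    ∃ c ∈ l, ∀ c' ∈ l, ∃ t, f c' = f c * t := by
  induction l with
  | nil => exact absurd rfl hl
  | cons a l ih =>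
    by_cases h : l = []
    · subst h
      exact ⟨a, by simp, fun c' hc' => ⟨1, by simp at hc'; simp [hc']⟩⟩
    · obtain ⟨c, hc, hc'⟩ := ih h
      rcases hr (f a) (f c) with ⟨t, ht⟩ | ⟨t, ht⟩
      · refine ⟨c, by simp [hc], fun c' h' => ?_⟩
        rcases List.mem_cons.1 h' with rfl | h'
        · exact ⟨t, ht⟩
        · exact hc' c' h'
      · refine ⟨a, by simp, fun c' h' => ?_⟩
        rcases List.mem_cons.1 h' with rfl | h'
        · exact ⟨1, by simp⟩
        · obtain ⟨s, hs⟩ := hc' c' h'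
          exact ⟨t * s, by rw [hs, ht, mul_assoc]⟩

theorem elim (hl : ∀ a b : S, (∃ t, a = t * b) ∨ ∃ t, b = t * a)
    (hr : ∀ a b : S, (∃ t, a = b * t) ∨ ∃ t, b = a * t) {n : ℕ} :
    ∀ (N : ℕ) (L : List ((Fin n → S) × S × S)), L.length = N →
      ∃ L' : List ((Fin n → S) × S), ∀ (M : Type u) [AddCommGroup M] [Module Sᵐᵒᵖ M]
        (v : Fin n → M), (∃ y, ∀ c ∈ L, HoldY c M v y) ↔ ∀ c ∈ L', Hold c M v := by
  intro N
  induction N with
  | zero =>
    intro L hL
    have : L = [] := List.length_eq_zero_iff.1 hL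
    subst this
    exact ⟨[], fun M _ _ v => by simp⟩
  | succ N ih =>
    intro L hL
    by_cases h : ∃ c ∈ L, ∃ r, c.2.1 = r * c.2.2
    · obtain ⟨c, hc, r, hr'⟩ := h
      obtain ⟨s, t, rfl⟩ := List.append_of_mem hc
      obtain ⟨L', hL'⟩ := ih (s ++ t) (by simp at hL ⊢; omega)
      refine ⟨(c.1, c.2.2) :: L', fun M _ _ v => ?_⟩
      have key : ∀ y, HoldY c M v y ↔ Hold (c.1, c.2.2) M v := by
        intro y
        unfold HoldY Hold
        constructor
        · rintro ⟨z, hz⟩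
          refine ⟨z - op r • y, ?_⟩
          rw [hr'] at hz
          simp only [op_mul, mul_smul] at hz
          rw [smul_sub, ← hz]
          abel
        · rintro ⟨z, hz⟩
          refine ⟨z + op r • y, ?_⟩
          rw [hr']
          simp only [op_mul, mul_smul]
          rw [smul_add, ← hz]
      constructor
      · rintro ⟨y, hy⟩ c' hc'
        rcases List.mem_cons.1 hc' with rfl | hc'
        · exact (key y).1 (hy c (by simp))
        · refine (hL' M v).1 ⟨y, fun c'' hc'' => hy c'' ?_⟩ c' hc'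
          simp only [List.mem_append, List.mem_cons] at hc'' ⊢
          tauto
      · intro h
        obtain ⟨y, hy⟩ := (hL' M v).2 (fun c' hc' => h c' (List.mem_cons_of_mem _ hc'))
        refine ⟨y, fun c' hc' => ?_⟩
        simp only [List.mem_append, List.mem_cons] at hc'
        by_cases hcc : c' = c
        · subst hcc
          exact (key y).2 (h _ (by simp))
        · refine hy c' ?_
          simp only [List.mem_append]
          tauto
    · push Not at h
      have hne : L ≠ [] := by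
        rintro rfl
        simp at hL
      obtain ⟨c, hc, hmax⟩ := exists_max_right hr (fun c : (Fin n → S) × S × S => c.2.1) L hne
      have hd : ∃ r, c.2.2 = r * c.2.1 := by
        rcases hl c.2.1 c.2.2 with ⟨t, ht⟩ | ht
        · exact absurd ht (h c hc t)
        · exact ht
      obtain ⟨r, hr'⟩ := hd
      obtain ⟨s, t, rfl⟩ := List.append_of_mem hc
      classical
      let τ : (Fin n → S) × S × S → S := fun c' =>
        if hh : ∃ t, c'.2.1 = c.2.1 * t then hh.choose else 0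
      have hτ : ∀ c' ∈ s ++ c :: t, c'.2.1 = c.2.1 * τ c' := by
        intro c' hc'
        have hh := hmax c' hc'
        simp only [τ]
        rw [dif_pos hh]
        exact hh.choose_spec
      let f : (Fin n → S) × S × S → (Fin n → S) × S × S := fun c' =>
        (fun i => c'.1 i - c.1 i * τ c', r * c'.2.1, c'.2.2)
      obtain ⟨L', hL'⟩ := ih ((s ++ t).map f) (by simp at hL ⊢; omega)
      refine ⟨(c.1, c.2.1) :: L', fun M _ _ v => ?_⟩
      have key : ∀ c' ∈ s ++ c :: t, ∀ y z : M,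
          (∑ i, op (c.1 i) • v i + op c.2.1 • y = op c.2.2 • z) →
          (HoldY c' M v y ↔ HoldY (f c') M v z) := by
        intro c' hc' y z hz
        have e1 : op c'.2.1 • y = op (τ c') • (op c.2.1 • y) := by
          rw [← mul_smul, ← op_mul, ← hτ c' hc']
        have e2 : op c.2.1 • y = op c.2.2 • z - ∑ i, op (c.1 i) • v i := by
          rw [← hz]; abel
        have e3 : op (τ c') • (op c.2.2 • z) = op (r * c'.2.1) • z := by
          rw [hr', ← mul_smul, ← op_mul, mul_assoc, ← hτ c' hc']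
        have e4 : ∑ i, op (c'.1 i - c.1 i * τ c') • v i
            = ∑ i, op (c'.1 i) • v i - op (τ c') • ∑ i, op (c.1 i) • v i := by
          rw [Finset.smul_sum, ← Finset.sum_sub_distrib]
          refine Finset.sum_congr rfl fun i _ => ?_
          rw [op_sub, sub_smul, op_mul, mul_smul]
        have e5 : ∑ i, op (c'.1 i) • v i + op c'.2.1 • y
            = ∑ i, op ((f c').1 i) • v i + op (f c').2.1 • z := by
          simp only [f]
          rw [e4, e1, e2, smul_sub, e3]
          abel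
        unfold HoldY
        rw [e5]
      constructor
      · rintro ⟨y, hy⟩
        obtain ⟨z, hz⟩ := hy c (by simp)
        intro c' hc'
        rcases List.mem_cons.1 hc' with rfl | hc'
        · refine ⟨op r • z - y, ?_⟩
          have : op c.2.2 • z = op c.2.1 • op r • z := by
            rw [hr', op_mul, mul_smul]
          rw [smul_sub, ← this, ← hz]
          simp
        · refine (hL' M v).1 ⟨z, fun c'' hc'' => ?_⟩ c' hc'
          obtain ⟨c₁, hc₁, rfl⟩ := List.mem_map.1 hc''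
          have hm : c₁ ∈ s ++ c :: t := by
            simp only [List.mem_append, List.mem_cons] at hc₁ ⊢
            tauto
          exact (key c₁ hm y z hz).1 (hy c₁ hm)
      · intro h
        obtain ⟨y', hy'⟩ := h _ (List.mem_cons_self)
        obtain ⟨z, hz⟩ := (hL' M v).2 (fun c' hc' => h c' (List.mem_cons_of_mem _ hc'))
        have hc0 : ∑ i, op (c.1 i) • v i + op c.2.1 • (op r • z - y') = op c.2.2 • z := by
          simp only at hy'
          rw [hy', smul_sub, hr', op_mul, mul_smul]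
          abel
        refine ⟨op r • z - y', fun c' hc' => ?_⟩
        by_cases hcc : c' = c
        · subst hcc
          exact ⟨z, hc0⟩
        · refine (key c' hc' _ z hc0).2 (hz _ (List.mem_map.2 ⟨c', ?_, rfl⟩))
          simp only [List.mem_append, List.mem_cons] at hc' ⊢
          tauto

theorem elim_all (hl : ∀ a b : S, (∃ t, a = t * b) ∨ ∃ t, b = t * a)
    (hr : ∀ a b : S, (∃ t, a = b * t) ∨ ∃ t, b = a * t) :
    ∀ (k : ℕ) (L : List ((Fin (k + 1) → S) × S)),
      ∃ L' : List (S × S), ∀ (M : Type u) [AddCommGroup M] [Module Sᵐᵒᵖ M] (x : M),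
        (∃ y : Fin k → M, ∀ c ∈ L, Hold c M (Fin.cons x y : Fin (k + 1) → M)) ↔
          ∀ c ∈ L', ∃ z : M, op c.1 • x = op c.2 • z := by
  intro k
  induction k with
  | zero =>
    intro L
    refine ⟨L.map (fun c => (c.1 0, c.2)), fun M _ _ x => ?_⟩
    constructor
    · rintro ⟨y, hy⟩ c hc
      obtain ⟨c', hc', rfl⟩ := List.mem_map.1 hc
      obtain ⟨z, hz⟩ := hy c' hc'
      exact ⟨z, by simpa using hz⟩
    · intro h
      refine ⟨Fin.elim0, fun c hc => ?_⟩
      obtain ⟨z, hz⟩ := h _ (List.mem_map.2 ⟨c, hc, rfl⟩)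
      exact ⟨z, by simpa using hz⟩
  | succ k ih =>
    intro L
    obtain ⟨L₁, hL₁⟩ := elim hl hr _ (L.map (fun c =>
      ((fun i : Fin (k + 1) => c.1 i.castSucc), c.1 (Fin.last (k + 1)), c.2))) rfl
    obtain ⟨L', hL'⟩ := ih L₁
    refine ⟨L', fun M _ _ x => ?_⟩
    rw [← hL' M x]
    have hh : ∀ (y : Fin k → M) (z : M) (c : (Fin (k + 1 + 1) → S) × S),
        Hold c M (Fin.cons x (Fin.snoc y z : Fin (k + 1) → M) : Fin (k + 1 + 1) → M) ↔
        HoldY ((fun i : Fin (k + 1) => c.1 i.castSucc), c.1 (Fin.last (k + 1)), c.2) M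
          (Fin.cons x y : Fin (k + 1) → M) z := by
      intro y z c
      unfold Hold HoldY
      rw [Fin.cons_snoc_eq_snoc_cons]
      simp only [Fin.sum_univ_castSucc (n := k + 1), Fin.snoc_castSucc, Fin.snoc_last]
    constructor
    · rintro ⟨y, hy⟩
      refine ⟨fun i => y i.castSucc, ?_⟩
      refine (hL₁ M _).1 ⟨y (Fin.last k), fun c hc => ?_⟩
      obtain ⟨c', hc', rfl⟩ := List.mem_map.1 hc
      rw [← hh]
      convert hy c' hc' using 2
      exact Fin.snoc_init_self y
    · rintro ⟨y, hy⟩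
      obtain ⟨z, hz⟩ := (hL₁ M _).2 hy
      refine ⟨Fin.snoc y z, fun c hc => ?_⟩
      rw [hh]
      exact hz _ (List.mem_map.2 ⟨c, hc, rfl⟩)


end normal

section bidual

/-- the circle -/
abbrev T := AddCircle (1 : ℝ)

/-- algebraic double dual of an abelian group, a compact group -/
def Bid (M : Type u) [AddCommGroup M] : AddSubgroup ((M →+ T) → T) where
  carrier := {p | ∀ χ χ', p (χ + χ') = p χ + p χ'}
  zero_mem' := fun _ _ => by simp
  add_mem' := by
    intro p q hp hq χ χ'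
    simp only [Pi.add_apply, hp χ χ', hq χ χ']
    abel
  neg_mem' := by
    intro p hp χ χ'
    simp only [Pi.neg_apply, hp χ χ']
    abel

variable {M : Type u} [AddCommGroup M]

theorem isClosed_Bid : IsClosed (Bid M : Set ((M →+ T) → T)) := by
  have : (Bid M : Set ((M →+ T) → T)) = ⋂ χ : M →+ T, ⋂ χ' : M →+ T,
      {p | p (χ + χ') = p χ + p χ'} := by
    ext p
    simp [Bid]
  rw [this]
  refine isClosed_iInter fun χ => isClosed_iInter fun χ' => ?_
  exact isClosed_eq (continuous_apply _) ((continuous_apply χ).add (continuous_apply χ'))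

instance : CompactSpace (Bid M) := isCompact_iff_compactSpace.1 isClosed_Bid.isCompact

theorem Bid.add' (p : Bid M) (χ χ' : M →+ T) : p.1 (χ + χ') = p.1 χ + p.1 χ' := p.2 χ χ'

variable {S : Type u} [Ring S] [Module Sᵐᵒᵖ M]

/-- multiplication by a scalar as an additive map -/
def sm (M : Type u) [AddCommGroup M] [Module Sᵐᵒᵖ M] (s : Sᵐᵒᵖ) : M →+ M :=
  DistribSMul.toAddMonoidHom M s

theorem sm_apply (s : Sᵐᵒᵖ) (m : M) : sm M s m = s • m := rfl

instance : SMul Sᵐᵒᵖ (Bid M) :=
  ⟨fun s p => ⟨fun χ => p.1 (χ.comp (sm M s)), fun χ χ' => by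
    change p.1 ((χ + χ').comp _) = _
    rw [AddMonoidHom.add_comp, p.2]⟩⟩

theorem smul_val (s : Sᵐᵒᵖ) (p : Bid M) (χ : M →+ T) : (s • p).1 χ = p.1 (χ.comp (sm M s)) := rfl

theorem val_zero (p : Bid M) : p.1 0 = 0 := by
  have := p.2 0 0
  rw [add_zero] at this
  exact left_eq_add.1 this

instance : Module Sᵐᵒᵖ (Bid M) where
  one_smul p := by
    apply Subtype.ext; funext χ
    rw [smul_val]
    refine congrArg p.1 (AddMonoidHom.ext fun m => ?_)
    simp [sm_apply]
  mul_smul s t p := by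
    apply Subtype.ext; funext χ
    rw [smul_val, smul_val, smul_val]
    refine congrArg p.1 (AddMonoidHom.ext fun m => ?_)
    simp [sm_apply, mul_smul]
  smul_zero s := by
    apply Subtype.ext; funext χ
    rfl
  smul_add s p q := by
    apply Subtype.ext; funext χ
    rfl
  add_smul s t p := by
    apply Subtype.ext; funext χ
    change p.1 _ = p.1 _ + p.1 _
    rw [← p.2]
    refine congrArg p.1 (AddMonoidHom.ext fun m => ?_)
    simp [sm_apply, add_smul]
  zero_smul p := by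
    apply Subtype.ext; funext χ
    change p.1 _ = 0
    rw [← val_zero p]
    refine congrArg p.1 (AddMonoidHom.ext fun m => ?_)
    simp [sm_apply]

theorem cont_smul (s : Sᵐᵒᵖ) : Continuous fun p : Bid M => s • p := by
  apply Continuous.subtype_mk
  apply continuous_pi
  intro χ
  exact (continuous_apply _).comp continuous_subtype_val

/-- evaluation -/
def ev : M →ₗ[Sᵐᵒᵖ] Bid M where
  toFun m := ⟨fun χ => χ m, fun χ χ' => rfl⟩
  map_add' m m' := by
    apply Subtype.ext; funext χ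
    exact map_add χ m m'
  map_smul' s m := by
    apply Subtype.ext; funext χ
    rfl

theorem ev_val (m : M) (χ : M →+ T) : (ev (S := S) m).1 χ = χ m := rfl

/-- functoriality -/
def bmap (f : M →ₗ[Sᵐᵒᵖ] M) : Bid M →ₗ[Sᵐᵒᵖ] Bid M where
  toFun p := ⟨fun χ => p.1 (χ.comp f.toAddMonoidHom), fun χ χ' => by
    change p.1 ((χ + χ').comp _) = _
    rw [AddMonoidHom.add_comp, p.2]⟩
  map_add' p q := by
    apply Subtype.ext; funext χ
    rfl
  map_smul' s p := by
    apply Subtype.ext; funext χ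
    change p.1 _ = p.1 _
    refine congrArg p.1 (AddMonoidHom.ext fun m => ?_)
    simp [sm_apply]

theorem bmap_ev (f : M →ₗ[Sᵐᵒᵖ] M) (m : M) : bmap f (ev (S := S) m) = ev (S := S) (f m) := rfl

theorem bmap_add (f g : M →ₗ[Sᵐᵒᵖ] M) (h : ∀ m, f m + g m = m) (p : Bid M) :
    bmap f p + bmap g p = p := by
  apply Subtype.ext; funext χ
  change p.1 _ + p.1 _ = p.1 _
  rw [← p.2]
  refine congrArg p.1 (AddMonoidHom.ext fun m => ?_)
  simp only [AddMonoidHom.add_apply, AddMonoidHom.comp_apply, LinearMap.toAddMonoidHom_coe]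
  rw [← map_add, h]

/-- the embedding of circles -/
noncomputable def circ : AddCircle (1 : ℚ) →+ T :=
  QuotientAddGroup.map _ _ (Rat.castHom ℝ).toAddMonoidHom (by
    intro x hx
    obtain ⟨n, hn⟩ := AddSubgroup.mem_zmultiples_iff.1 hx
    rw [AddSubgroup.mem_comap, AddSubgroup.mem_zmultiples_iff]
    refine ⟨n, ?_⟩
    rw [← hn]
    simp)

theorem circ_inj : Function.Injective circ := by
  rw [injective_iff_map_eq_zero]
  intro x hx
  induction x using QuotientAddGroup.induction_on with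
  | H q =>
    have h1 : (QuotientAddGroup.mk ((q : ℚ) : ℝ) : T) = 0 := hx
    rw [QuotientAddGroup.eq_zero_iff, AddSubgroup.mem_zmultiples_iff] at h1
    obtain ⟨n, hn⟩ := h1
    rw [QuotientAddGroup.eq_zero_iff, AddSubgroup.mem_zmultiples_iff]
    refine ⟨n, ?_⟩
    have h2 : ((n : ℚ) : ℝ) = (q : ℝ) := by simpa using hn
    have h3 : (n : ℚ) = q := by exact_mod_cast h2
    simpa using h3

theorem exists_char (V : AddSubgroup M) {m : M} (hm : m ∉ V) :
    ∃ χ : M →+ T, (∀ v ∈ V, χ v = 0) ∧ χ m ≠ 0 := by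
  have h1 : (QuotientAddGroup.mk m : M ⧸ V) ≠ 0 := by
    rw [Ne, QuotientAddGroup.eq_zero_iff]
    exact hm
  obtain ⟨c, hc⟩ := CharacterModule.exists_character_apply_ne_zero_of_ne_zero h1
  refine ⟨(circ.comp c).comp (QuotientAddGroup.mk' V), ?_, ?_⟩
  · intro v hv
    have : (QuotientAddGroup.mk v : M ⧸ V) = 0 := by rwa [QuotientAddGroup.eq_zero_iff]
    simp [this]
  · intro h
    apply hc
    apply circ_inj
    rw [map_zero]
    exact h

/-- purity of the evaluation map for single equations -/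
theorem ev_pure (z : M) (s t : Sᵐᵒᵖ) (y : Bid M) (hy : t • y = s • ev (S := S) z) :
    ∃ y : M, t • y = s • z := by
  by_contra hno
  obtain ⟨χ, h1, h2⟩ := exists_char (AddMonoidHom.range (sm M t)) (m := s • z) (by
    rintro ⟨y, hy⟩
    exact hno ⟨y, hy⟩)
  apply h2
  have h3 := congrFun (congrArg Subtype.val hy) χ
  rw [smul_val, smul_val, ev_val] at h3
  have h4 : χ.comp (sm M t) = 0 := by
    ext m
    exact h1 _ ⟨m, rfl⟩
  rw [h4, val_zero] at h3
  exact h3.symm

end bidual


section chain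

variable {S : Type u} [Ring S]

/-- in a chain ring `x` is right invertible or `1 - x` is left invertible -/
theorem inv_cases (hr : ∀ a b : S, (∃ t, a = b * t) ∨ ∃ t, b = a * t) (x : S) :
    (∃ y, x * y = 1) ∨ ∃ y, y * (1 - x) = 1 := by
  -- Dedekind finite
  have ded : ∀ a b : S, a * b = 1 → b * a = 1 := by
    intro a b hab
    have hee : (b * a) * (b * a) = b * a := by
      rw [mul_assoc, ← mul_assoc a b a, hab, one_mul]
    rcases hr (b * a) (1 - b * a) with ⟨t, ht⟩ | ⟨t, ht⟩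
    · have h1 : b * a = 0 := by
        calc b * a = (b * a) * (b * a) := hee.symm
          _ = (b * a) * ((1 - b * a) * t) := by rw [← ht]
          _ = (b * a - (b * a) * (b * a)) * t := by noncomm_ring
          _ = 0 := by rw [hee]; simp
      have h2 : (1 : S) = 0 := by
        calc (1 : S) = a * b * (a * b) := by rw [hab]; simp
          _ = a * (b * a) * b := by noncomm_ring
          _ = 0 := by rw [h1]; simp
      have : Subsingleton S := subsingleton_of_zero_eq_one h2.symm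
      exact Subsingleton.elim _ _
    · have h1 : 1 - b * a = 0 := by
        calc 1 - b * a = (1 - b * a) - (b * a - (b * a) * (b * a)) := by rw [hee]; simp
          _ = (1 - b * a) * (1 - b * a) := by noncomm_ring
          _ = (1 - b * a) * ((b * a) * t) := by rw [← ht]
          _ = (b * a - (b * a) * (b * a)) * t := by noncomm_ring
          _ = 0 := by rw [hee]; simp
      exact (sub_eq_zero.1 h1).symm
  rcases hr x (1 - x) with ⟨t, ht⟩ | ⟨t, ht⟩
  · right
    have h1 : (1 - x) * (1 + t) = 1 := by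
      calc (1 - x) * (1 + t) = (1 - x) + (1 - x) * t := by noncomm_ring
        _ = (1 - x) + x := by rw [← ht]
        _ = 1 := by simp
    exact ⟨1 + t, ded _ _ h1⟩
  · left
    refine ⟨1 + t, ?_⟩
    calc x * (1 + t) = x + x * t := by noncomm_ring
      _ = x + (1 - x) := by rw [← ht]
      _ = 1 := by simp

/-- elements of the union of the ideals below `c` -/
def Lo (I : ℚ → TwoSidedIdeal S) (c : ℚ) (a : S) : Prop := ∃ c' < c, a ∈ I c'

theorem Lo.left {I : ℚ → TwoSidedIdeal S} {c : ℚ} {a : S} (h : Lo I c a) (s : S) :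
    Lo I c (s * a) := by
  obtain ⟨c', h1, h2⟩ := h
  exact ⟨c', h1, (I c').mul_mem_left s a h2⟩

theorem Lo.right {I : ℚ → TwoSidedIdeal S} {c : ℚ} {a : S} (h : Lo I c a) (s : S) :
    Lo I c (a * s) := by
  obtain ⟨c', h1, h2⟩ := h
  exact ⟨c', h1, (I c').mul_mem_right a s h2⟩

theorem Lo.mono {I : ℚ → TwoSidedIdeal S} {c d : ℚ} {a : S} (h : Lo I c a) (hcd : c ≤ d) :
    Lo I d a := by
  obtain ⟨c', h1, h2⟩ := h
  exact ⟨c', h1.trans_le hcd, h2⟩

theorem key (hl : ∀ a b : S, (∃ t, a = t * b) ∨ ∃ t, b = t * a)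
    (hr : ∀ a b : S, (∃ t, a = b * t) ∨ ∃ t, b = a * t)
    (I J : ℚ → TwoSidedIdeal S) (hIJ : ∀ p q, ∃ x ∈ I p, ∃ y ∈ J q, x * y ≠ 0) {c : ℚ}
    {a a' b b' f t : S} (ha : ¬ Lo I c a) (ha' : Lo I c a') (hb : b ∈ J c) (hb' : b' ∉ J c)
    (h : (f * a' - a) * b' = a * b * t) : False := by
  obtain ⟨r, hr1⟩ : ∃ r, f * a' = a * r := by
    rcases hr (f * a') a with h1 | ⟨s, hs⟩
    · exact h1
    · exact absurd (hs ▸ (ha'.left f).right s) ha
  obtain ⟨q, hq⟩ : ∃ q, b = b' * q := by
    rcases hr b b' with h1 | ⟨s, hs⟩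
    · exact h1
    · exact absurd (hs ▸ (J c).mul_mem_right b s hb) hb'
  -- w
  let w := (r - 1) * b' - b' * q * t
  have hw : a * w = 0 := by
    have h1 : a * ((r - 1) * b') = a * b * t := by
      rw [← h, hr1]; noncomm_ring
    calc a * w = a * ((r - 1) * b') - a * (b' * q) * t := by simp only [w]; noncomm_ring
      _ = 0 := by rw [h1, ← hq, sub_self]
  have hwJ : w ∉ J c := by
    intro hwJ
    have h1 : (r - 1) * b' ∈ J c := by
      have h2 : (r - 1) * b' = w + b * t := by simp only [w]; rw [← hq]; abel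
      rw [h2]
      exact (J c).add_mem hwJ ((J c).mul_mem_right b t hb)
    rcases inv_cases hr r with ⟨y, hy⟩ | ⟨y, hy⟩
    · apply ha
      have h2 : a = f * a' * y := by rw [hr1, mul_assoc, hy, mul_one]
      rw [h2]
      exact (ha'.left f).right y
    · apply hb'
      have h2 : b' = (-y) * ((r - 1) * b') := by
        calc b' = (y * (1 - r)) * b' := by rw [hy, one_mul]
          _ = (-y) * ((r - 1) * b') := by noncomm_ring
      rw [h2]
      exact (J c).mul_mem_left _ _ h1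
  obtain ⟨x, hx, y, hy, hxy⟩ := hIJ (c - 1) c
  apply hxy
  obtain ⟨s, rfl⟩ : ∃ s, x = s * a := by
    rcases hl x a with h1 | ⟨s, hs⟩
    · exact h1
    · exact absurd ⟨c - 1, by linarith, hs ▸ (I _).mul_mem_left s x hx⟩ ha
  obtain ⟨s', rfl⟩ : ∃ s', y = w * s' := by
    rcases hr y w with h1 | ⟨s, hs⟩
    · exact h1
    · exact absurd (hs ▸ (J c).mul_mem_right y s hy) hwJ
  calc s * a * (w * s') = s * (a * w) * s' := by noncomm_ring
    _ = 0 := by rw [hw]; simp

/-- index poset -/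
structure DD (I J : ℚ → TwoSidedIdeal S) (c : ℚ) : Type u where
  a : S
  b : S
  ha : ¬ Lo I c a
  hb : b ∈ J c

variable (I J : ℚ → TwoSidedIdeal S) (c : ℚ)

instance : Preorder (DD I J c) where
  le d d' := (∃ t, d'.a = t * d.a) ∧ ∃ t, d.b = d'.b * t
  le_refl d := ⟨⟨1, by simp⟩, ⟨1, by simp⟩⟩
  le_trans d d' d'' := by
    rintro ⟨⟨t, ht⟩, ⟨s, hs⟩⟩ ⟨⟨t', ht'⟩, ⟨s', hs'⟩⟩
    exact ⟨⟨t' * t, by rw [ht', ht, mul_assoc]⟩, ⟨s' * s, by rw [hs, hs', mul_assoc]⟩⟩

theorem dd_directed (hl : ∀ a b : S, (∃ t, a = t * b) ∨ ∃ t, b = t * a)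
    (hr : ∀ a b : S, (∃ t, a = b * t) ∨ ∃ t, b = a * t) : IsDirectedOrder (DD I J c) := by
  constructor
  intro d d'
  have h1 : ∃ a, ¬ Lo I c a ∧ (∃ t, a = t * d.a) ∧ ∃ t, a = t * d'.a := by
    rcases hl d.a d'.a with ⟨t, ht⟩ | ⟨t, ht⟩
    · exact ⟨d.a, d.ha, ⟨1, by simp⟩, ⟨t, ht⟩⟩
    · exact ⟨d'.a, d'.ha, ⟨t, ht⟩, ⟨1, by simp⟩⟩
  have h2 : ∃ b ∈ J c, (∃ t, d.b = b * t) ∧ ∃ t, d'.b = b * t := by
    rcases hr d.b d'.b with ⟨t, ht⟩ | ⟨t, ht⟩
    · exact ⟨d'.b, d'.hb, ⟨t, ht⟩, ⟨1, by simp⟩⟩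
    · exact ⟨d.b, d.hb, ⟨1, by simp⟩, ⟨t, ht⟩⟩
  obtain ⟨a, ha, ha1, ha2⟩ := h1
  obtain ⟨b, hb, hb1, hb2⟩ := h2
  exact ⟨⟨a, b, ha, hb⟩, ⟨ha1, hb1⟩, ⟨ha2, hb2⟩⟩

theorem dd_nonempty (hI : StrictMono I) : Nonempty (DD I J c) := by
  refine ⟨⟨1, 0, ?_, (J c).zero_mem⟩⟩
  rintro ⟨c', _, h1⟩
  have h2 : I c' < I (c' + 1) := hI (by linarith)
  apply h2.not_ge
  intro x _
  have := (I c').mul_mem_left x 1 h1
  rwa [mul_one] at this

/-- eventually in the ideal generated by `ab` -/
def WW : Submodule Sᵐᵒᵖ (DD I J c → S) where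
  carrier := {f | ∀ᶠ d in atTop, ∃ t, f d = d.a * d.b * t}
  zero_mem' := Eventually.of_forall fun d => ⟨0, by simp⟩
  add_mem' := by
    intro f g hf hg
    filter_upwards [hf, hg] with d h1 h2
    obtain ⟨t, ht⟩ := h1
    obtain ⟨t', ht'⟩ := h2
    exact ⟨t + t', by rw [Pi.add_apply, ht, ht', mul_add]⟩
  smul_mem' := by
    intro s f hf
    filter_upwards [hf] with d h1
    obtain ⟨t, ht⟩ := h1
    refine ⟨t * s.unop, ?_⟩
    rw [Pi.smul_apply, ht, ← mul_assoc]
    rfl

abbrev UU : Type u := (DD I J c → S) ⧸ WW I J c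

def zz : UU I J c := Submodule.Quotient.mk (fun d => d.a)

variable {I J c}

theorem zz_phi {a : S} (hI : StrictMono I) (hl : ∀ a b : S, (∃ t, a = t * b) ∨ ∃ t, b = t * a)
    (hr : ∀ a b : S, (∃ t, a = b * t) ∨ ∃ t, b = a * t)
    (ha : ¬ Lo I c a) : ∃ y : UU I J c, op a • y = zz I J c := by
  classical
  have := dd_directed I J c hl hr
  have := dd_nonempty I J c hI
  refine ⟨Submodule.Quotient.mk (fun d => if h : ∃ t, d.a = t * a then h.choose else 0), ?_⟩
  unfold zz
  rw [← Submodule.Quotient.mk_smul, Submodule.Quotient.eq]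
  filter_upwards [eventually_ge_atTop (⟨a, 0, ha, (J c).zero_mem⟩ : DD I J c)] with d hd
  have h : ∃ t, d.a = t * a := hd.1
  refine ⟨0, ?_⟩
  rw [Pi.sub_apply, Pi.smul_apply, dif_pos h, mul_zero, op_smul_eq_mul, ← h.choose_spec, sub_self]

theorem zz_psi {b : S} (hI : StrictMono I) (hl : ∀ a b : S, (∃ t, a = t * b) ∨ ∃ t, b = t * a)
    (hr : ∀ a b : S, (∃ t, a = b * t) ∨ ∃ t, b = a * t)
    (hb : b ∈ J c) : op b • zz I J c = 0 := by
  classical
  have := dd_directed I J c hl hr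
  obtain ⟨d0⟩ := dd_nonempty I J c hI
  have := dd_nonempty I J c hI
  unfold zz
  rw [← Submodule.Quotient.mk_smul, Submodule.Quotient.mk_eq_zero]
  filter_upwards [eventually_ge_atTop (⟨d0.a, b, d0.ha, hb⟩ : DD I J c)] with d hd
  obtain ⟨t, ht⟩ : ∃ t, b = d.b * t := hd.2
  refine ⟨t, ?_⟩
  rw [Pi.smul_apply, op_smul_eq_mul, mul_assoc, ← ht]

theorem zz_not {r s : S} (hI : StrictMono I) (hl : ∀ a b : S, (∃ t, a = t * b) ∨ ∃ t, b = t * a)
    (hr : ∀ a b : S, (∃ t, a = b * t) ∨ ∃ t, b = a * t)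
    (hIJ : ∀ p q, ∃ x ∈ I p, ∃ y ∈ J q, x * y ≠ 0) (hs : Lo I c r) (hr' : s ∉ J c) :
    ¬ ∃ y : UU I J c, op (r * s) • y = op s • zz I J c := by
  classical
  have := dd_directed I J c hl hr
  have := dd_nonempty I J c hI
  rintro ⟨y, hy⟩
  obtain ⟨f, rfl⟩ := Submodule.Quotient.mk_surjective _ y
  unfold zz at hy
  rw [← Submodule.Quotient.mk_smul, ← Submodule.Quotient.mk_smul, Submodule.Quotient.eq] at hy
  have h1 : ∀ᶠ d in atTop, ∃ t, (op (r * s) • f - op s • fun d : DD I J c => d.a) d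
    = d.a * d.b * t := hy
  obtain ⟨d, t, ht⟩ := h1.exists
  rw [Pi.sub_apply, Pi.smul_apply, Pi.smul_apply, op_smul_eq_mul, op_smul_eq_mul] at ht
  refine key hl hr I J hIJ d.ha hs d.hb hr' (f := f d) (t := t) ?_
  rw [← ht]
  noncomm_ring

end chain



section chainmain

variable {S : Type u} [Ring S]

/-- idempotent form of superdecomposability -/
def SDI (S : Type u) [Ring S] (N : Type u) [AddCommGroup N] [Module Sᵐᵒᵖ N] : Prop :=
  ∀ p : N →ₗ[Sᵐᵒᵖ] N, (∀ x, p (p x) = p x) → p ≠ 0 →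
    ∃ q : N →ₗ[Sᵐᵒᵖ] N, (∀ x, q (q x) = q x) ∧ (∀ x, p (q x) = q x) ∧ (∀ x, q (p x) = q x) ∧
      q ≠ 0 ∧ q ≠ p

/-- the big module -/
abbrev MB (I J : ℚ → TwoSidedIdeal S) : Type u := ∀ c : ℚ, UU I J c

theorem chain_sd (hl : ∀ a b : S, (∃ t, a = t * b) ∨ ∃ t, b = t * a)
    (hr : ∀ a b : S, (∃ t, a = b * t) ∨ ∃ t, b = a * t)
    (I J : ℚ → TwoSidedIdeal S) (hI : StrictMono I) (hJ : StrictMono J)
    (hIJ : ∀ p q, ∃ x ∈ I p, ∃ y ∈ J q, x * y ≠ 0)
    {P : Type u} [AddCommGroup P] [Module Sᵐᵒᵖ P] [TopologicalSpace P]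
    [IsTopologicalAddGroup P] [CompactSpace P] [T2Space P]
    (hcont : ∀ s : Sᵐᵒᵖ, Continuous fun p : P => s • p)
    (ev : MB I J →ₗ[Sᵐᵒᵖ] P)
    (ev_pure : ∀ (z : MB I J) (s t : Sᵐᵒᵖ) (y : P), t • y = s • ev z → ∃ y : MB I J, t • y = s • z)
    (hb : ∀ f1 f2 : MB I J →ₗ[Sᵐᵒᵖ] MB I J, (∀ m, f1 m + f2 m = m) →
      ∃ g1 g2 : P →ₗ[Sᵐᵒᵖ] P, (∀ x, g1 x + g2 x = x) ∧ (∀ m, g1 (ev m) = ev (f1 m)) ∧
        ∀ m, g2 (ev m) = ev (f2 m)) :
    ∃ z : P, z ≠ 0 ∧ ∃ e : P →ₗ[Sᵐᵒᵖ] P, e ∘ₗ e = e ∧ e z = z ∧ ∀ e1 : P →ₗ[Sᵐᵒᵖ] P, e1 ∘ₗ e1 = e1 →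
      e ∘ₗ e1 = e1 → e1 ∘ₗ e = e1 → e1 ≠ 0 →
      ∃ q : P →ₗ[Sᵐᵒᵖ] P, q ∘ₗ q = q ∧ e1 ∘ₗ q = q ∧ q ∘ₗ e1 = q ∧ q ≠ 0 ∧ q ≠ e1 := by
  classical
  let z0 : MB I J := fun c => zz I J c
  let z : P := ev z0
  have hno : ∀ (r s : S) (c : ℚ), Lo I c r → s ∉ J c → ∀ y : P, op (r * s) • y ≠ op s • z := by
    intro r s c hr1 hs1 y hy
    obtain ⟨y', hy'⟩ := ev_pure z0 (op s) (op (r * s)) y hy
    exact zz_not hI hl hr hIJ hr1 hs1 ⟨y' c, congrFun hy' c⟩
  have hone : (1 : S) ∉ J 0 := by
    intro h1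
    have h2 : J 0 < J 1 := hJ (by norm_num)
    apply h2.not_ge
    intro x _
    have := (J 0).mul_mem_left x 1 h1
    rwa [mul_one] at this
  have hz : z ≠ 0 := by
    intro h0
    refine hno 0 1 0 ⟨-1, by norm_num, (I (-1)).zero_mem⟩ hone 0 ?_
    rw [h0, smul_zero, smul_zero]
  refine ⟨z, hz, core hcont z ?_⟩
  · 
    intro m n H b hψ
    obtain ⟨L', hL'⟩ := elim_all hl hr m
      (List.ofFn (fun j => ((Fin.cons (b j) (fun i => - H i j) : Fin (m + 1) → S), (0 : S))))
    have hcnf : ∀ x : P, Solv H (fun j => op (b j) • x) ↔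
        ∀ c ∈ L', ∃ z : P, op c.1 • x = op c.2 • z := by
      intro x
      rw [← hL' P x]
      unfold Solv
      refine exists_congr fun y => ?_
      simp only [List.mem_ofFn, forall_exists_index, forall_apply_eq_imp_iff]
      refine forall_congr' fun j => ?_
      unfold Hold
      simp only [Fin.sum_univ_succ, Fin.cons_zero, Fin.cons_succ, op_neg, neg_smul,
        Finset.sum_neg_distrib, op_zero, zero_smul, exists_const]
      rw [add_neg_eq_zero]
      exact eq_comm
    rw [hcnf] at hψ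
    push Not at hψ
    obtain ⟨⟨s, u⟩, hsu, hψ⟩ := hψ
    simp only at hψ
    obtain ⟨r, rfl⟩ : ∃ r, u = r * s := by
      rcases hl u s with h1 | ⟨t, rfl⟩
      · exact h1
      · exfalso
        apply hψ (op t • z)
        rw [op_mul, mul_smul]
    -- a coordinate
    obtain ⟨c, hc⟩ : ∃ c : ℚ, ¬ ∃ y : UU I J c, op (r * s) • y = op s • zz I J c := by
      by_contra hcon
      push Not at hcon
      choose y hy using hcon
      apply hψ (ev (y : MB I J))
      rw [← map_smul, ← map_smul]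
      congr 1
      funext c
      exact (hy c).symm
    have hrc : Lo I c r := by
      by_contra h
      obtain ⟨y, hy⟩ := zz_phi (J := J) hI hl hr h
      apply hc
      refine ⟨y, ?_⟩
      rw [op_mul, mul_smul, hy]
    have hsc : s ∉ J c := by
      intro h
      apply hc
      refine ⟨0, ?_⟩
      rw [zz_psi hI hl hr h, smul_zero]
    obtain ⟨c', hc', hrc'⟩ := hrc
    obtain ⟨c2, hc2, hc2c⟩ : ∃ c2, c' < c2 ∧ c2 < c := exists_between hc'
    obtain ⟨c0, hc0, hc0c⟩ : ∃ c0, c2 < c0 ∧ c0 < c := exists_between hc2c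
    obtain ⟨c1, hc1, hc1c⟩ : ∃ c1, c0 < c1 ∧ c1 < c := exists_between hc0c
    obtain ⟨a0, ha0, ha0'⟩ : ∃ a0, a0 ∈ I c1 ∧ a0 ∉ I c0 := by
      by_contra hcon
      push Not at hcon
      exact (hI hc1).not_ge hcon
    obtain ⟨b0, hb0, hb0'⟩ : ∃ b0, b0 ∈ J c0 ∧ b0 ∉ J c2 := by
      by_contra hcon
      push Not at hcon
      exact (hJ hc0).not_ge hcon
    have ha0n : ∀ d < c0, ¬ Lo I d a0 := by
      rintro d hd ⟨d', hd', h⟩
      exact ha0' (hI.monotone (hd'.le.trans hd.le) h)
    have ha0y : Lo I c a0 := ⟨c1, hc1c, ha0⟩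
    have hrc'' : Lo I c2 r := ⟨c', hc2, hrc'⟩
    have hrc : Lo I c r := ⟨c', hc', hrc'⟩
    have hsc2 : s ∉ J c2 := fun h => hsc (hJ.monotone hc2c.le h)
    let f1 : MB I J →ₗ[Sᵐᵒᵖ] MB I J :=
      { toFun := fun x d => if d < c0 then x d else 0
        map_add' := by intro x y; funext d; by_cases hd : d < c0 <;> simp [hd]
        map_smul' := by intro x y; funext d; by_cases hd : d < c0 <;> simp [hd] }
    let f2 : MB I J →ₗ[Sᵐᵒᵖ] MB I J :=
      { toFun := fun x d => if d < c0 then 0 else x d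
        map_add' := by intro x y; funext d; by_cases hd : d < c0 <;> simp [hd]
        map_smul' := by intro x y; funext d; by_cases hd : d < c0 <;> simp [hd] }
    let α : AddSubgroup P :=
      { carrier := {x | ∃ y : P, op a0 • y = x}
        zero_mem' := ⟨0, smul_zero _⟩
        add_mem' := by
          rintro _ _ ⟨y, rfl⟩ ⟨y', rfl⟩
          exact ⟨y + y', smul_add _ _ _⟩
        neg_mem' := by
          rintro _ ⟨y, rfl⟩
          exact ⟨-y, smul_neg _ _⟩ }
    let β : AddSubgroup P :=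
      { carrier := {x | op b0 • x = 0}
        zero_mem' := smul_zero _
        add_mem' := by
          intro x y hx hy
          simp only [Set.mem_ofPred_eq] at hx hy ⊢
          rw [smul_add, hx, hy, add_zero]
        neg_mem' := by
          intro x hx
          simp only [Set.mem_ofPred_eq] at hx ⊢
          rw [smul_neg, hx, neg_zero] }
    obtain ⟨g1, g2, hg12, hg1, hg2⟩ := hb f1 f2 (by
      intro m
      funext d
      by_cases hd : d < c0 <;> simp [f1, f2, hd])
    refine ⟨g1, g2, α, β, hg12, ?_, ?_, ?_, ?_, ?_, ?_⟩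
    · rintro g _ ⟨y, rfl⟩
      exact ⟨g y, (map_smul g _ _).symm⟩
    · intro g x hx
      change op b0 • g x = 0
      have hx' : op b0 • x = 0 := hx
      rw [← map_smul, hx', map_zero]
    · have hy : ∀ d : ℚ, ∃ y : UU I J d, op a0 • y = if d < c0 then zz I J d else 0 := by
        intro d
        by_cases hd : d < c0
        · rw [if_pos hd]
          exact zz_phi hI hl hr (ha0n d hd)
        · rw [if_neg hd]
          exact ⟨0, smul_zero _⟩
      choose y hy using hy
      refine ⟨ev (y : MB I J), ?_⟩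
      rw [hg1, ← map_smul]
      congr 1
      funext d
      exact hy d
    · change op b0 • g2 (ev z0) = 0
      rw [hg2, ← map_smul]
      have : op b0 • f2 z0 = 0 := by
        funext d
        change op b0 • (if d < c0 then 0 else zz I J d) = 0
        by_cases hd : d < c0
        · rw [if_pos hd, smul_zero]
        · rw [if_neg hd]
          exact zz_psi hI hl hr (hJ.monotone (not_lt.1 hd) hb0)
      rw [this, map_zero]
    · rintro x _ hx ⟨y', rfl⟩ hxy
      obtain ⟨z', hz'⟩ := (hcnf x).1 hx _ hsu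
      simp only at hz'
      have h1 : op s • z = op (r * s) • z' + op (a0 * s) • y' := by
        rw [← hxy, smul_add, hz', op_mul a0 s, mul_smul]
      rcases hl r a0 with ⟨t, rfl⟩ | ⟨t, rfl⟩
      · refine hno a0 s c ha0y hsc (op t • z' + y') ?_
        rw [h1, smul_add, ← mul_smul, ← op_mul, mul_assoc]
      · refine hno r s c hrc hsc (z' + op t • y') ?_
        rw [h1, smul_add, ← mul_smul, ← op_mul, mul_assoc]
    · rintro x y hx hy hxy
      have hy' : op b0 • y = 0 := hy
      obtain ⟨z', hz'⟩ := (hcnf x).1 hx _ hsu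
      simp only at hz'
      rcases hr s b0 with ⟨t, rfl⟩ | ⟨t, rfl⟩
      · refine hno r (b0 * t) c2 hrc'' hsc2 z' ?_
        rw [← hxy, smul_add, hz', op_mul b0 t, mul_smul (op t) (op b0) y, hy', smul_zero, add_zero]
      · refine hno r (s * t) c2 hrc'' hb0' z' ?_
        rw [← hxy, smul_add, hy', add_zero, op_mul s t, mul_smul (op t) (op s) x, hz',
          ← mul_smul, ← op_mul, mul_assoc]

theorem range_sd {P : Type u} [AddCommGroup P] [Module Sᵐᵒᵖ P] [TopologicalSpace P]
    [IsTopologicalAddGroup P] [CompactSpace P] [T2Space P]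
    (hcont : ∀ s : Sᵐᵒᵖ, Continuous fun p : P => s • p)
    (z : P) (hz : z ≠ 0) (e : P →ₗ[Sᵐᵒᵖ] P) (hee : e ∘ₗ e = e) (hez : e z = z)
    (hmain : ∀ e1 : P →ₗ[Sᵐᵒᵖ] P, e1 ∘ₗ e1 = e1 →
      e ∘ₗ e1 = e1 → e1 ∘ₗ e = e1 → e1 ≠ 0 →
      ∃ q : P →ₗ[Sᵐᵒᵖ] P, q ∘ₗ q = q ∧ e1 ∘ₗ q = q ∧ q ∘ₗ e1 = q ∧ q ≠ 0 ∧ q ≠ e1) :
    ∃ (N : Type u) (_ : AddCommGroup N) (_ : Module Sᵐᵒᵖ N),
      IsPureInjective S N ∧ Nontrivial N ∧ SDI S N := by
  have pee : ∀ x, e (e x) = e x := fun x => LinearMap.congr_fun hee x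
  refine ⟨LinearMap.range e, inferInstance, inferInstance, ?_, ?_, ?_⟩
  · -- pure-injective
    intro A B _ _ _ _ f hf g
    obtain ⟨h, hh⟩ := extend hcont f ((LinearMap.range e).subtype ∘ₗ g) (by
      intro m n H a hs
      have := (hf.2 m n H a hs).map ((LinearMap.range e).subtype ∘ₗ g)
      exact this)
    refine ⟨e.rangeRestrict ∘ₗ h, fun a => ?_⟩
    apply Subtype.ext
    change e (h (f a)) = g a
    rw [hh]
    obtain ⟨x, hx⟩ := (g a).2
    change e (g a) = g a
    rw [← hx, pee]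
  · refine ⟨⟨⟨z, ⟨z, hez⟩⟩, 0, fun h => hz ?_⟩⟩
    exact congrArg Subtype.val h
  · intro p hp hp0
    -- extend p to P
    let ι := (LinearMap.range e).subtype
    let π := e.rangeRestrict
    have hπι : ∀ x, π (ι x) = x := by
      intro x
      apply Subtype.ext
      change e x = x
      obtain ⟨y, hy⟩ := x.2
      rw [← hy, pee]
    have hιπ : ∀ x, ι (π x) = e x := fun x => rfl
    have heι : ∀ x, e (ι x) = ι x := by
      intro x
      rw [← hιπ, hπι]
    have hπe : ∀ x, π (e x) = π x := by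
      intro x
      apply Subtype.ext
      change e (e x) = e x
      exact pee x
    obtain ⟨q, h1, h2, h3, h4, h5⟩ := hmain (ι ∘ₗ p ∘ₗ π)
      (by ext1 x; simp only [LinearMap.comp_apply, hπι, hp])
      (by ext1 x; simp only [LinearMap.comp_apply, heι])
      (by ext1 x; simp only [LinearMap.comp_apply, hπe])
      (by
        intro h0
        apply hp0
        ext1 x
        have := LinearMap.congr_fun h0 (ι x)
        simp only [LinearMap.comp_apply, hπι, LinearMap.zero_apply] at this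
        exact Subtype.ext this)
    have q1 : ∀ x, q (q x) = q x := fun x => LinearMap.congr_fun h1 x
    have q2 : ∀ x, ι (p (π (q x))) = q x := fun x => LinearMap.congr_fun h2 x
    have q3 : ∀ x, q (ι (p (π x))) = q x := fun x => LinearMap.congr_fun h3 x
    have q4 : ∀ x, ι (π (q x)) = q x := by
      intro x
      rw [hιπ, ← q2, heι]
    refine ⟨π ∘ₗ q ∘ₗ ι, ?_, ?_, ?_, ?_, ?_⟩
    · intro x
      simp only [LinearMap.comp_apply, q4, q1]
    · intro x
      simp only [LinearMap.comp_apply]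
      have := congrArg π (q2 (ι x))
      rwa [hπι] at this
    · intro x
      simp only [LinearMap.comp_apply]
      have := q3 (ι x)
      rw [hπι] at this
      rw [this]
    · intro h0
      apply h4
      ext1 x
      have h6 : q x = q (ι (p (π x))) := (q3 x).symm
      rw [h6, ← q4]
      have := LinearMap.congr_fun h0 (p (π x))
      simp only [LinearMap.comp_apply, LinearMap.zero_apply] at this
      rw [this]
      rfl
    · intro h0
      apply h5
      ext1 x
      have h7 := LinearMap.congr_fun h0 (p (π x))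
      simp only [LinearMap.comp_apply, hp] at h7
      rw [← q3 x, ← q4, h7]
      rfl

theorem chain_exists (hl : ∀ a b : S, (∃ t, a = t * b) ∨ ∃ t, b = t * a)
    (hr : ∀ a b : S, (∃ t, a = b * t) ∨ ∃ t, b = a * t)
    (I J : ℚ → TwoSidedIdeal S) (hI : StrictMono I) (hJ : StrictMono J)
    (hIJ : ∀ p q, ∃ x ∈ I p, ∃ y ∈ J q, x * y ≠ 0) :
    ∃ (N : Type u) (_ : AddCommGroup N) (_ : Module Sᵐᵒᵖ N),
      IsPureInjective S N ∧ Nontrivial N ∧ SDI S N := by
  obtain ⟨z, hz, e, h1, h2, h3⟩ := chain_sd hl hr I J hI hJ hIJ (P := Bid (MB I J)) cont_smul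
    (ev (S := S)) ev_pure (fun f1 f2 h => ⟨bmap f1, bmap f2, bmap_add f1 f2 h, bmap_ev f1,
      bmap_ev f2⟩)
  exact range_sd cont_smul z hz e h1 h2 h3

end chainmain

section kdim

variable {L : Type u} [PartialOrder L]

theorem kdim_iff (α : Ordinal.{u}) (a b : L) : KdimLE α a b ↔
    ∀ c : ℕ → L, Antitone c → (∀ i, a ≤ c i ∧ c i ≤ b) → ∃ N, ∀ i ≥ N,
      c (i + 1) = c i ∨ ∃ β, ∃ _ : β < α, KdimLE β (c (i + 1)) (c i) := by
  rw [KdimLE]

theorem kdim_mono {α α' : Ordinal.{u}} {a b a' b' : L} (h : KdimLE α a b) (hα : α ≤ α')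
    (ha : a ≤ a') (hb : b' ≤ b) : KdimLE α' a' b' := by
  rw [kdim_iff] at h ⊢
  intro c hc hab
  obtain ⟨N, hN⟩ := h c hc (fun i => ⟨ha.trans (hab i).1, (hab i).2.trans hb⟩)
  refine ⟨N, fun i hi => ?_⟩
  rcases hN i hi with h1 | ⟨β, hβ, h1⟩
  · exact Or.inl h1
  · exact Or.inr ⟨β, hβ.trans_le hα, h1⟩

def HK (a b : L) : Prop := ∃ α : Ordinal.{u}, KdimLE α a b

theorem hk_refl (a : L) : HK a a := by
  refine ⟨0, ?_⟩
  rw [kdim_iff]
  intro c _ hab
  refine ⟨0, fun i _ => Or.inl ?_⟩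
  have h1 : c (i + 1) = a := le_antisymm (hab _).2 (hab _).1
  have h2 : c i = a := le_antisymm (hab _).2 (hab _).1
  rw [h1, h2]

theorem hk_mono {a b a' b' : L} (h : HK a b) (ha : a ≤ a') (hb : b' ≤ b) : HK a' b' := by
  obtain ⟨α, h⟩ := h
  exact ⟨α, kdim_mono h le_rfl ha hb⟩

theorem exists_split {a b : L} (h : ¬ HK a b) : ∃ x, a ≤ x ∧ x ≤ b ∧ ¬ HK a x ∧ ¬ HK x b := by
  classical
  by_contra hcon
  push Not at hcon
  apply h
  let f : L × L → Ordinal.{u} := fun p => if hp : HK p.1 p.2 then hp.choose else 0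
  have hf : ∀ x y, HK x y → KdimLE (f (x, y)) x y := by
    intro x y hxy
    simp only [f]
    rw [dif_pos hxy]
    exact hxy.choose_spec
  let γ : Ordinal.{u} := Order.succ (⨆ p, f p)
  have hγ : ∀ p, f p < γ := by
    intro p
    apply Order.lt_succ_of_le
    exact Ordinal.le_iSup f p
  refine ⟨γ, ?_⟩
  rw [kdim_iff]
  intro c hc hab
  by_cases h1 : ∃ N, HK a (c N)
  · obtain ⟨N, hN⟩ := h1
    refine ⟨N, fun i hi => Or.inr ?_⟩
    have : HK (c (i + 1)) (c i) := hk_mono hN (hab _).1 (hc hi)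
    exact ⟨_, hγ _, hf _ _ this⟩
  · push Not at h1
    refine ⟨0, fun i _ => Or.inr ?_⟩
    have h2 := hcon (c (i + 1)) (hab _).1 (hab _).2 (h1 _)
    have : HK (c (i + 1)) (c i) := hk_mono h2 le_rfl (hab _).2
    exact ⟨_, hγ _, hf _ _ this⟩

theorem exists_dense {a b : L} (hle : a ≤ b) (h : ¬ HK a b) : ∃ I : ℚ → L, StrictMono I := by
  classical
  let r : L → L → Prop := fun x y => x ≤ y ∧ ¬ HK x y
  have hirr : ∀ x, ¬ r x x := fun x hx => hx.2 (hk_refl x)
  have hne : ∀ x y, r x y → x ≠ y := by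
    rintro x y hxy rfl
    exact hirr x hxy
  have hlt : ∀ x y, r x y → x < y := fun x y hxy => lt_of_le_of_ne hxy.1 (hne x y hxy)
  have htr : ∀ x y z, r x y → y ≤ z → r x z := by
    rintro x y z ⟨h1, h2⟩ h3
    exact ⟨h1.trans h3, fun h => h2 (hk_mono h le_rfl h3)⟩
  have htr' : ∀ x y z, x ≤ y → r y z → r x z := by
    rintro x y z h1 ⟨h2, h3⟩
    exact ⟨h1.trans h2, fun h => h3 (hk_mono h h1 le_rfl)⟩
  have hdense : ∀ x y, r x y → ∃ z, r x z ∧ r z y := by
    rintro x y ⟨h1, h2⟩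
    obtain ⟨z, h3, h4, h5, h6⟩ := exists_split h2
    exact ⟨z, ⟨h3, h5⟩, ⟨h4, h6⟩⟩
  have hch : IsChain r {a, b} := by
    intro x hx y hy hxy
    simp only [Set.mem_insert_iff, Set.mem_singleton_iff] at hx hy
    rcases hx with rfl | rfl <;> rcases hy with rfl | rfl
    · exact absurd rfl hxy
    · exact Or.inl ⟨hle, h⟩
    · exact Or.inr ⟨hle, h⟩
    · exact absurd rfl hxy
  obtain ⟨C, hC, hsub⟩ := hch.exists_maxChain
  have hcomp : ∀ x ∈ C, ∀ y ∈ C, x < y → r x y := by
    intro x hx y hy hxy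
    rcases hC.1 hx hy hxy.ne with h1 | h1
    · exact h1
    · exact absurd (hlt _ _ h1) hxy.not_gt
  let : LinearOrder C :=
    { (inferInstance : PartialOrder C) with
      le_total := by
        intro x y
        by_cases hxy : x = y
        · exact Or.inl (le_of_eq hxy)
        · rcases hC.1 x.2 y.2 (fun h => hxy (Subtype.ext h)) with h1 | h1
          · exact Or.inl (hlt _ _ h1).le
          · exact Or.inr (hlt _ _ h1).le
      toDecidableLE := Classical.decRel _ }
  have hDO : DenselyOrdered C := by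
    constructor
    intro x y hxy
    have hrxy : r x y := hcomp x x.2 y y.2 hxy
    obtain ⟨z, hz1, hz2⟩ := hdense _ _ hrxy
    by_contra hno
    push Not at hno
    have hzC : z ∈ C := by
      have h1 : IsChain r (insert z C) := by
        apply hC.1.insert
        intro w hw hzw
        rcases le_total (⟨w, hw⟩ : C) x with h2 | h2
        · exact Or.inr (htr' _ _ _ h2 hz1)
        · rcases eq_or_lt_of_le h2 with h3 | h3
          · right
            have : w = x := (congrArg Subtype.val h3).symm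
            rw [this]; exact hz1
          · left
            exact htr _ _ _ hz2 (hno ⟨w, hw⟩ h3)
      have h2 := hC.2 h1 (Set.subset_insert z C)
      rw [h2]
      exact Set.mem_insert z C
    exact absurd (hlt _ _ hz2) (not_lt_of_ge (hno ⟨z, hzC⟩ (hlt _ _ hz1)))
  have hnt : Nontrivial C :=
    ⟨⟨⟨a, hsub (by simp)⟩, ⟨b, hsub (by simp)⟩, fun hab => hne a b ⟨hle, h⟩
      (congrArg Subtype.val hab)⟩⟩
  obtain ⟨g⟩ := Order.embedding_from_countable_to_dense ℚ C
  exact ⟨fun q => (g q : L), fun p q hpq => g.strictMono hpq⟩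

end kdim

section serial

theorem internal_decomp {K M : Type*} [Ring K] [AddCommGroup M] [Module K M] {n : ℕ}
    (A : Fin n → Submodule K M) (hA : DirectSum.IsInternal A) :
    ∃ π : Fin n → (M →ₗ[K] M), (∀ i x, π i x ∈ A i) ∧ (∀ x, ∑ i, π i x = x) ∧
      ∀ i, ∀ x ∈ A i, π i x = x := by
  let h := LinearEquiv.ofBijective (DirectSum.coeLinearMap A) hA
  refine ⟨fun i => (A i).subtype ∘ₗ DirectSum.component K (Fin n) (fun i => A i) i ∘ₗ
    h.symm.toLinearMap, ?_, ?_, ?_⟩
  · intro i x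
    exact ((h.symm x) i).2
  · intro x
    have h1 := h.apply_symm_apply x
    rw [← DirectSum.sum_univ_of (h.symm x), map_sum] at h1
    refine Eq.trans (Finset.sum_congr rfl fun i _ => ?_) h1
    exact (DirectSum.coeLinearMap_of A i _).symm
  · intro i x hx
    exact congrArg Subtype.val (hA.ofBijective_coeLinearMap_of_mem hx)

variable {R : Type u} [Ring R]

theorem right_idem (h : IsSerialModule Rᵐᵒᵖ R) : ∃ (n : ℕ) (e : Fin n → R),
    (∑ i, e i = 1) ∧ (∀ i, e i * e i = e i) ∧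
    ∀ i, ∀ x y, e i * x = x → e i * y = y → (∃ t, x = y * t) ∨ ∃ t, y = x * t := by
  obtain ⟨n, A, hA, hu⟩ := h
  obtain ⟨π, h1, h2, h3⟩ := internal_decomp A hA
  have hmul : ∀ i x, π i x = π i 1 * x := by
    intro i x
    have := (π i).map_smul (op x) 1
    rw [op_smul_eq_mul, op_smul_eq_mul, one_mul] at this
    exact this
  refine ⟨n, fun i => π i 1, h2 1, ?_, ?_⟩
  · intro i
    change π i 1 * π i 1 = π i 1
    rw [← hmul]
    exact h3 i _ (h1 i 1)
  · intro i x y hx hy
    have hxA : x ∈ A i := by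
      have := h1 i x
      rwa [hmul, hx] at this
    have hyA : y ∈ A i := by
      have := h1 i y
      rwa [hmul, hy] at this
    have key : ∀ x y : A i, Submodule.span Rᵐᵒᵖ {x} ≤ Submodule.span Rᵐᵒᵖ {y} →
        ∃ t, (x : R) = y * t := by
      intro x y hxy
      have := hxy (Submodule.mem_span_singleton_self x)
      obtain ⟨t, ht⟩ := Submodule.mem_span_singleton.1 this
      refine ⟨t.unop, ?_⟩
      have h4 := congrArg Subtype.val ht
      rw [← h4]
      rfl
    rcases hu i (Submodule.span Rᵐᵒᵖ {⟨x, hxA⟩}) (Submodule.span Rᵐᵒᵖ {⟨y, hyA⟩}) with h4 | h4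
    · exact Or.inl (key _ _ h4)
    · exact Or.inr (key _ _ h4)

theorem left_idem (h : IsSerialModule R R) : ∃ (n : ℕ) (e : Fin n → R),
    (∑ i, e i = 1) ∧ (∀ i, e i * e i = e i) ∧
    ∀ i, ∀ x y, x * e i = x → y * e i = y → (∃ t, x = t * y) ∨ ∃ t, y = t * x := by
  obtain ⟨n, A, hA, hu⟩ := h
  obtain ⟨π, h1, h2, h3⟩ := internal_decomp A hA
  have hmul : ∀ i x, π i x = x * π i 1 := by
    intro i x
    have := (π i).map_smul x 1
    rw [smul_eq_mul, smul_eq_mul, mul_one] at this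
    exact this
  refine ⟨n, fun i => π i 1, h2 1, ?_, ?_⟩
  · intro i
    change π i 1 * π i 1 = π i 1
    rw [← hmul]
    exact h3 i _ (h1 i 1)
  · intro i x y hx hy
    have hxA : x ∈ A i := by
      have := h1 i x
      rwa [hmul, hx] at this
    have hyA : y ∈ A i := by
      have := h1 i y
      rwa [hmul, hy] at this
    have key : ∀ x y : A i, Submodule.span R {x} ≤ Submodule.span R {y} →
        ∃ t, (x : R) = t * y := by
      intro x y hxy
      have := hxy (Submodule.mem_span_singleton_self x)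
      obtain ⟨t, ht⟩ := Submodule.mem_span_singleton.1 this
      refine ⟨t, ?_⟩
      have h4 := congrArg Subtype.val ht
      rw [← h4]
      rfl
    rcases hu i (Submodule.span R {⟨x, hxA⟩}) (Submodule.span R {⟨y, hyA⟩}) with h4 | h4
    · exact Or.inl (key _ _ h4)
    · exact Or.inr (key _ _ h4)

theorem exists_max_right' {e : R} (hR : ∀ x y, e * x = x → e * y = y →
      (∃ t, x = y * t) ∨ ∃ t, y = x * t) {ι : Type*} [DecidableEq ι] (x : ι → R)
    (hx : ∀ i, e * x i = x i) (s : Finset ι) : s.Nonempty → ∃ j ∈ s, ∀ j' ∈ s, ∃ t, x j' = x j * t := by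
  induction s using Finset.induction_on with
  | empty => intro h; exact absurd h (by simp)
  | insert a s ha ih =>
    intro _
    rcases s.eq_empty_or_nonempty with rfl | hs
    · exact ⟨a, by simp, fun j' hj' => ⟨1, by simp at hj'; simp [hj']⟩⟩
    · obtain ⟨j, hj, hmax⟩ := ih hs
      rcases hR (x a) (x j) (hx a) (hx j) with ⟨t, ht⟩ | ⟨t, ht⟩
      · refine ⟨j, by simp [hj], fun j' hj' => ?_⟩
        rcases Finset.mem_insert.1 hj' with rfl | h'
        · exact ⟨t, ht⟩
        · exact hmax j' h'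
      · refine ⟨a, by simp, fun j' hj' => ?_⟩
        rcases Finset.mem_insert.1 hj' with rfl | h'
        · exact ⟨1, by simp⟩
        · obtain ⟨s', hs'⟩ := hmax j' h'
          exact ⟨t * s', by rw [hs', ht, mul_assoc]⟩

/-- idempotents that are uniserial on both sides -/
theorem serial_idem (h : IsSerialRing R) : ∃ (n : ℕ) (e : Fin n → R),
    (∑ i, e i = 1) ∧ (∀ i, e i * e i = e i) ∧
    (∀ i, ∀ x y, e i * x = x → e i * y = y → (∃ t, x = y * t) ∨ ∃ t, y = x * t) ∧
    ∀ i, ∀ x y, x * e i = x → y * e i = y → (∃ t, x = t * y) ∨ ∃ t, y = t * x := by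
  obtain ⟨n, e, he1, hee, hR⟩ := right_idem h.1
  obtain ⟨m, f, hf1, hff, hL⟩ := left_idem h.2
  refine ⟨n, e, he1, hee, hR, ?_⟩
  intro i x y hx hy
  rcases Nat.eq_zero_or_pos m with rfl | hm
  · simp only [Finset.univ_eq_empty, Finset.sum_empty] at hf1
    have : Subsingleton R := subsingleton_of_zero_eq_one hf1
    exact Or.inl ⟨0, Subsingleton.elim _ _⟩
  obtain ⟨j, _, hmax⟩ := exists_max_right' (hR i) (fun j => e i * f j * e i)
    (fun j => by simp only [← mul_assoc, hee]) Finset.univ ⟨⟨0, hm⟩, Finset.mem_univ _⟩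
  choose t ht using fun j' => hmax j' (Finset.mem_univ _)
  have hu : ∃ u, e i * f j * e i * u = e i := by
    refine ⟨∑ j', t j', ?_⟩
    rw [Finset.mul_sum]
    calc ∑ j', e i * f j * e i * t j' = ∑ j', e i * f j' * e i :=
          Finset.sum_congr rfl fun j' _ => (ht j').symm
      _ = e i * (∑ j', f j') * e i := by rw [Finset.mul_sum, Finset.sum_mul]
      _ = e i := by rw [hf1, mul_one, hee]
  obtain ⟨u, hu⟩ := hu
  have hinj : ∀ z, z * e i = z → z * f j = 0 → z = 0 := by
    intro z hz hz0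
    calc z = z * e i := hz.symm
      _ = z * (e i * f j * e i * u) := by rw [hu]
      _ = (z * e i) * f j * e i * u := by noncomm_ring
      _ = 0 := by rw [hz, hz0]; simp
  have key : ∀ x y : R, x * e i = x → y * e i = y → (∃ t, x * f j = t * (y * f j)) →
      ∃ t, x = t * y := by
    rintro x y hx hy ⟨t, ht⟩
    refine ⟨t, ?_⟩
    have h1 : x - t * y = 0 := by
      apply hinj
      · rw [sub_mul, hx, mul_assoc, hy]
      · rw [sub_mul, ht, mul_assoc, sub_self]
    exact sub_eq_zero.1 h1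
  rcases hL j (x * f j) (y * f j) (by rw [mul_assoc, hff]) (by rw [mul_assoc, hff]) with h1 | h1
  · exact Or.inl (key x y hx hy h1)
  · exact Or.inr (key y x hy hx h1)

/-- The basic step. -/
theorem step {e f : R}
    (hR : ∀ x y, e * x = x → e * y = y → (∃ t, x = y * t) ∨ ∃ t, y = x * t)
    (hL : ∀ x y, x * f = x → y * f = y → (∃ t, x = t * y) ∨ ∃ t, y = t * x)
    (hee : e * e = e) (hff : f * f = f)
    {Iq Iq' Ir Ir' : TwoSidedIdeal R} (hq'r : Iq' ≤ Ir)
    {x x' : R} (hx : x ∈ Iq') (hxq : e * x * f ∉ Iq) (hx' : x' ∈ Ir') (hxr : e * x' * f ∉ Ir) :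
    ∃ k y, e * k = k ∧ k * e = k ∧ e * y = y ∧ y * f = y ∧ y ∈ Ir' ∧ k * y ∉ Iq ∧
      ∀ x ∈ Ir, k * x * f ∈ Iq' := by
  set h := e * x * f with hh
  set y := e * x' * f with hy
  have hhI : h ∈ Iq' := Iq'.mul_mem_right _ _ (Iq'.mul_mem_left _ _ hx)
  have hyI : y ∈ Ir' := Ir'.mul_mem_right _ _ (Ir'.mul_mem_left _ _ hx')
  have heh : e * h = h := by rw [hh, ← mul_assoc, ← mul_assoc, hee]
  have hey : e * y = y := by rw [hy, ← mul_assoc, ← mul_assoc, hee]
  have hhf : h * f = h := by rw [hh, mul_assoc, hff]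
  have hyf : y * f = y := by rw [hy, mul_assoc, hff]
  obtain ⟨t, ht⟩ : ∃ t, h = t * y := by
    rcases hL h y hhf hyf with h1 | ⟨t, ht⟩
    · exact h1
    · exact absurd (hq'r (ht ▸ Iq'.mul_mem_left t h hhI)) hxr
  have hky : e * t * e * y = h := by
    rw [mul_assoc, hey, mul_assoc, ← ht, heh]
  refine ⟨e * t * e, y, ?_, ?_, hey, hyf, hyI, ?_, ?_⟩
  · rw [← mul_assoc, ← mul_assoc, hee]
  · rw [mul_assoc, hee]
  · rw [hky]; exact hxq
  · intro w hw
    have h1 : e * t * e * w * f = e * t * e * (e * w * f) := by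
      calc e * t * e * w * f = e * t * e * w * f := rfl
        _ = e * t * (e * e) * w * f := by rw [hee]
        _ = e * t * e * (e * w * f) := by noncomm_ring
    rw [h1]
    obtain ⟨s, hs⟩ : ∃ s, e * w * f = y * s := by
      rcases hR (e * w * f) y (by rw [← mul_assoc, ← mul_assoc, hee]) hey with h2 | ⟨s, hs⟩
      · exact h2
      · refine absurd (?_ : y ∈ Ir) hxr
        rw [hs]
        exact Ir.mul_mem_right _ _ (Ir.mul_mem_right _ _ (Ir.mul_mem_left _ _ hw))
    rw [hs, ← mul_assoc, hky]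
    exact Iq'.mul_mem_right _ _ hhI

/-- reparametrisation -/
theorem exists_repar {a b : ℚ} (hab : a < b) : ∃ φ : ℚ → ℚ, StrictMono φ ∧
    ∀ q, a < φ q ∧ φ q < b := by
  obtain ⟨c, hc⟩ := exists_between hab
  obtain ⟨d, hd⟩ := exists_between hc.2
  have : Nontrivial (Set.Ioo a b) :=
    ⟨⟨⟨c, hc⟩, ⟨d, hc.1.trans hd.1, hd.2⟩, fun h => hd.1.ne (congrArg Subtype.val h)⟩⟩
  obtain ⟨g⟩ := Order.embedding_from_countable_to_dense ℚ (Set.Ioo a b)
  exact ⟨fun q => (g q : ℚ), fun p q hpq => g.strictMono hpq, fun q => (g q).2⟩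

/-- finite colouring of the intervals of `ℚ` -/
theorem exists_colour {ι : Type*} [DecidableEq ι] (D : ι → ℚ → ℚ → Prop)
    (hD : ∀ i p q p' q', p' ≤ p → q ≤ q' → D i p q → D i p' q') (s : Finset ι) :
    ∀ a b : ℚ, a < b → (∀ p q, a < p → p < q → q < b → ∃ i ∈ s, D i p q) →
      ∃ i ∈ s, ∃ a' b', a' < b' ∧ ∀ p q, a' < p → p < q → q < b' → D i p q := by
  induction s using Finset.induction_on with
  | empty =>
    intro a b hab h
    obtain ⟨c, hc⟩ := exists_between hab
    obtain ⟨d, hd⟩ := exists_between hc.2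
    obtain ⟨i, hi, _⟩ := h c d hc.1 hd.1 hd.2
    simp at hi
  | insert j s hj ih =>
    intro a b hab h
    by_cases h1 : ∀ p q, a < p → p < q → q < b → D j p q
    · exact ⟨j, by simp, a, b, hab, h1⟩
    · push Not at h1
      obtain ⟨p, q, hp, hpq, hq, hn⟩ := h1
      obtain ⟨i, hi, a', b', hab', h2⟩ := ih p q hpq (by
        intro p' q' hp' hpq' hq'
        obtain ⟨i, hi, hD'⟩ := h p' q' (hp.trans hp') hpq' (hq'.trans hq)
        rcases Finset.mem_insert.1 hi with rfl | hi
        · exact absurd (hD i p' q' p q hp'.le hq'.le hD') hn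
        · exact ⟨i, hi, hD'⟩)
      exact ⟨i, by simp [hi], a', b', hab', h2⟩

/-- From a dense chain of two-sided ideals of a serial ring to a corner. -/
theorem exists_corner (h : IsSerialRing R) (I : ℚ → TwoSidedIdeal R) (hI : StrictMono I) :
    ∃ (e f : R) (I' : ℚ → TwoSidedIdeal R), e * e = e ∧ f * f = f ∧
      (∀ x y, e * x = x → e * y = y → (∃ t, x = y * t) ∨ ∃ t, y = x * t) ∧
      (∀ x y, x * e = x → y * e = y → (∃ t, x = t * y) ∨ ∃ t, y = t * x) ∧
      (∀ x y, x * f = x → y * f = y → (∃ t, x = t * y) ∨ ∃ t, y = t * x) ∧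
      Monotone I' ∧ ∀ p q, p < q → ∃ x ∈ I' q, e * x * f ∉ I' p := by
  classical
  obtain ⟨n, e, he1, hee, hR, hL⟩ := serial_idem h
  obtain ⟨⟨i, j⟩, _, a', b', hab', hD⟩ := exists_colour
    (fun (ij : Fin n × Fin n) p q => ∃ x ∈ I q, e ij.1 * x * e ij.2 ∉ I p)
    (by
      rintro ⟨i, j⟩ p q p' q' hp hq ⟨x, hx, hxn⟩
      exact ⟨x, hI.monotone hq hx, fun h => hxn (hI.monotone hp h)⟩)
    Finset.univ 0 1 (by norm_num) (by
      intro p q _ hpq _
      have h1 : ∃ x, x ∈ I q ∧ x ∉ I p := by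
        by_contra hcon
        push Not at hcon
        exact (hI hpq).not_ge hcon
      obtain ⟨x, hx, hxp⟩ := h1
      by_contra hcon
      push Not at hcon
      apply hxp
      have h2 : x = ∑ i, ∑ j, e i * x * e j := by
        simp_rw [← Finset.mul_sum, he1, mul_one, ← Finset.sum_mul, he1, one_mul]
      rw [h2]
      exact sum_mem fun i _ => sum_mem fun j _ => hcon (i, j) (Finset.mem_univ _) x hx)
  obtain ⟨φ, hφ, hφ'⟩ := exists_repar hab'
  refine ⟨e i, e j, fun q => I (φ q), hee i, hee j, hR i, hL i, hL j, fun p q hpq =>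
    hI.monotone (hφ.monotone hpq), ?_⟩
  intro p q hpq
  exact hD (φ p) (φ q) (hφ' p).1 (hφ hpq) (hφ' q).2

end serial

section corner

variable {R : Type u} [Ring R]

/-- constructor of elements of the corner ring -/
def mkC {e : R} (he : IsIdempotentElem e) (k : R) (h1 : e * k = k) (h2 : k * e = k) : he.Corner :=
  (⟨k, (Subsemigroup.mem_corner_iff he).2 ⟨h1, h2⟩⟩ : Subsemigroup.corner e)

theorem corner_left {e : R} (he : IsIdempotentElem e) (k : he.Corner) : e * k.1 = k.1 :=
  ((Subsemigroup.mem_corner_iff he).1 k.2).1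

theorem corner_right {e : R} (he : IsIdempotentElem e) (k : he.Corner) : k.1 * e = k.1 :=
  ((Subsemigroup.mem_corner_iff he).1 k.2).2

/-- the ideal quotient `{k : k A ⊆ B}` (with idempotents) in a corner ring -/
def quo {e : R} (he : IsIdempotentElem e) (f : R) (A B : TwoSidedIdeal R) :
    TwoSidedIdeal he.Corner :=
  TwoSidedIdeal.mk' {k | ∀ x ∈ A, (k : he.Corner).1 * x * f ∈ B}
    (by intro x _; change (0 : R) * x * f ∈ B; rw [zero_mul, zero_mul]; exact B.zero_mem)
    (by
      intro k k' hk hk' x hx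
      change (k.1 + k'.1) * x * f ∈ B
      rw [add_mul, add_mul]
      exact B.add_mem (hk x hx) (hk' x hx))
    (by
      intro k hk x hx
      change (-k.1) * x * f ∈ B
      rw [neg_mul, neg_mul]
      exact B.neg_mem (hk x hx))
    (by
      intro s k hk x hx
      change (s.1 * k.1) * x * f ∈ B
      have : (s.1 * k.1) * x * f = s.1 * (k.1 * x * f) := by noncomm_ring
      rw [this]
      exact B.mul_mem_left _ _ (hk x hx))
    (by
      intro k s hk x hx
      change (k.1 * s.1) * x * f ∈ B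
      have : (k.1 * s.1) * x * f = k.1 * (s.1 * x) * f := by noncomm_ring
      rw [this]
      exact hk _ (A.mul_mem_left _ _ hx))

theorem mem_quo {e : R} (he : IsIdempotentElem e) (f : R) (A B : TwoSidedIdeal R)
    (k : he.Corner) : k ∈ quo he f A B ↔ ∀ x ∈ A, k.1 * x * f ∈ B := by
  unfold quo
  rw [TwoSidedIdeal.mem_mk']
  rfl

theorem quo_mono {e : R} (he : IsIdempotentElem e) (f : R) {A B A' B' : TwoSidedIdeal R}
    (hA : A' ≤ A) (hB : B ≤ B') : quo he f A B ≤ quo he f A' B' := by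
  intro k hk
  rw [mem_quo] at hk ⊢
  exact fun x hx => hB (hk x (hA hx))

theorem quo_chain {e : R} (he : IsIdempotentElem e) {f : R} (hff : f * f = f)
    (hR : ∀ x y, e * x = x → e * y = y → (∃ t, x = y * t) ∨ ∃ t, y = x * t)
    (hL : ∀ x y, x * f = x → y * f = y → (∃ t, x = t * y) ∨ ∃ t, y = t * x)
    (I : ℚ → TwoSidedIdeal R) (hI : Monotone I)
    (hD : ∀ p q, p < q → ∃ x ∈ I q, e * x * f ∉ I p) :
    ∃ (I' : ℚ → TwoSidedIdeal he.Corner), StrictMono I' ∧
      ∀ t, ∃ k ∈ I' t, ∃ y ∈ I 2, k.1 * y ≠ 0 := by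
  obtain ⟨φ, hφ, hφ'⟩ := exists_repar (show (0 : ℚ) < 1 by norm_num)
  obtain ⟨ψ, hψ, hψ'⟩ := exists_repar (show (1 : ℚ) < 2 by norm_num)
  let I' : ℚ → TwoSidedIdeal he.Corner := fun t => quo he f (I (ψ (-t))) (I (φ t))
  have hstep : ∀ t t', t < t' → ∃ k : he.Corner, k ∈ I' t' ∧ k ∉ I' t ∧
      ∃ y ∈ I 2, k.1 * y ≠ 0 := by
    intro t t' htt
    obtain ⟨x, hx, hxn⟩ := hD (φ t) (φ t') (hφ htt)
    obtain ⟨x', hx', hxn'⟩ := hD (ψ (-t')) (ψ (-t)) (hψ (by linarith))
    obtain ⟨k, y, h1, h2, h3, h4, h5, h6, h7⟩ := step hR hL he hff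
      (hI (by linarith [(hφ' t').2, (hψ' (-t')).1])) hx hxn hx' hxn'
    refine ⟨mkC he k h1 h2, ?_, ?_, y, ?_, ?_⟩
    · exact (mem_quo he f _ _ _).2 h7
    · intro hcon
      apply h6
      have := (mem_quo he f _ _ _).1 hcon y h5
      change k * y * f ∈ _ at this
      rwa [mul_assoc, h4] at this
    · exact hI (hψ' _).2.le h5
    · intro h0
      apply h6
      change k * y = 0 at h0
      rw [h0]
      exact (I _).zero_mem
  refine ⟨I', ?_, ?_⟩
  · intro t t' htt
    refine lt_of_le_not_ge ?_ ?_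
    · exact quo_mono he f (hI (hψ.monotone (by linarith))) (hI (hφ.monotone htt.le))
    · obtain ⟨k, hk, hk', _⟩ := hstep t t' htt
      exact fun hcon => hk' (hcon hk)
  · intro t
    obtain ⟨k, hk, _, hy⟩ := hstep (t - 1) t (by linarith)
    exact ⟨k, hk, hy⟩

end corner

section chain2

variable {S : Type u} [Ring S]

/-- the ideal quotient `{k : k A ⊆ B}` -/
def quo1 (A B : TwoSidedIdeal S) : TwoSidedIdeal S :=
  TwoSidedIdeal.mk' {k | ∀ x ∈ A, k * x ∈ B}
    (by intro x _; rw [zero_mul]; exact B.zero_mem)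
    (by
      intro k k' hk hk' x hx
      rw [add_mul]
      exact B.add_mem (hk x hx) (hk' x hx))
    (by
      intro k hk x hx
      rw [neg_mul]
      exact B.neg_mem (hk x hx))
    (by
      intro s k hk x hx
      rw [mul_assoc]
      exact B.mul_mem_left _ _ (hk x hx))
    (by
      intro k s hk x hx
      rw [mul_assoc]
      exact hk _ (A.mul_mem_left _ _ hx))

theorem mem_quo1 (A B : TwoSidedIdeal S) (k : S) : k ∈ quo1 A B ↔ ∀ x ∈ A, k * x ∈ B := by
  unfold quo1
  rw [TwoSidedIdeal.mem_mk']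
  rfl

theorem two_chains (hl : ∀ a b : S, (∃ t, a = t * b) ∨ ∃ t, b = t * a)
    (hr : ∀ a b : S, (∃ t, a = b * t) ∨ ∃ t, b = a * t)
    (I : ℚ → TwoSidedIdeal S) (hI : StrictMono I) :
    ∃ I' J : ℚ → TwoSidedIdeal S, StrictMono I' ∧ StrictMono J ∧
      ∀ p q, ∃ x ∈ I' p, ∃ y ∈ J q, x * y ≠ 0 := by
  obtain ⟨φ, hφ, hφ'⟩ := exists_repar (show (0 : ℚ) < 1 by norm_num)
  obtain ⟨ψ, hψ, hψ'⟩ := exists_repar (show (1 : ℚ) < 2 by norm_num)
  obtain ⟨χ, hχ, hχ'⟩ := exists_repar (show (2 : ℚ) < 3 by norm_num)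
  have hD : ∀ p q, p < q → ∃ x ∈ I q, 1 * x * 1 ∉ I p := by
    intro p q hpq
    by_contra hcon
    push Not at hcon
    simp only [one_mul, mul_one] at hcon
    exact (hI hpq).not_ge hcon
  let I' : ℚ → TwoSidedIdeal S := fun t => quo1 (I (ψ (-t))) (I (φ t))
  have hstep : ∀ t t', t < t' → ∃ k : S, k ∈ I' t' ∧ k ∉ I' t ∧
      ∃ y ∈ I 2, k * y ≠ 0 := by
    intro t t' htt
    obtain ⟨x, hx, hxn⟩ := hD (φ t) (φ t') (hφ htt)
    obtain ⟨x', hx', hxn'⟩ := hD (ψ (-t')) (ψ (-t)) (hψ (by linarith))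
    obtain ⟨k, y, h1, h2, h3, h4, h5, h6, h7⟩ := step (e := 1) (f := 1) (fun x y _ _ => hr x y)
      (fun x y _ _ => hl x y) (one_mul 1) (one_mul 1)
      (hI.monotone (by linarith [(hφ' t').2, (hψ' (-t')).1])) hx hxn hx' hxn'
    refine ⟨k, ?_, ?_, y, ?_, ?_⟩
    · refine (mem_quo1 _ _ _).2 fun x hx => ?_
      have := h7 x hx
      rwa [mul_one] at this
    · intro hcon
      exact h6 ((mem_quo1 _ _ _).1 hcon y h5)
    · exact hI.monotone (hψ' _).2.le h5
    · intro h0
      apply h6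
      rw [h0]
      exact (I _).zero_mem
  refine ⟨I', fun t => I (χ t), ?_, fun p q hpq => hI (hχ hpq), ?_⟩
  · intro t t' htt
    refine lt_of_le_not_ge ?_ ?_
    · intro k hk
      have hk' := (mem_quo1 _ _ _).1 hk
      exact (mem_quo1 _ _ _).2 fun x hx => hI.monotone (hφ.monotone htt.le)
        (hk' x (hI.monotone (hψ.monotone (by linarith)) hx))
    · obtain ⟨k, hk, hk', _⟩ := hstep t t' htt
      exact fun hcon => hk' (hcon hk)
  · intro t q
    obtain ⟨k, hk, _, y, hy, hky⟩ := hstep (t - 1) t (by linarith)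
    exact ⟨k, hk, y, hI.monotone (hχ' q).1.le hy, hky⟩

end chain2

section transfer

variable {R : Type u} [Ring R] {e : R} (he : IsIdempotentElem e)

/-- the `e`-part `M e` of a right module -/
def Er (e : R) (A : Type u) [AddCommGroup A] [Module Rᵐᵒᵖ A] : AddSubgroup A where
  carrier := {a | op e • a = a}
  zero_mem' := smul_zero _
  add_mem' := by
    intro x y hx hy
    simp only [Set.mem_ofPred_eq] at hx hy ⊢
    rw [smul_add, hx, hy]
  neg_mem' := by
    intro x hx
    simp only [Set.mem_ofPred_eq] at hx ⊢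
    rw [smul_neg, hx]

theorem er_mem {A : Type u} [AddCommGroup A] [Module Rᵐᵒᵖ A] (k : he.Corner) (a : A) :
    op k.1 • a ∈ Er e A := by
  change op e • op k.1 • a = op k.1 • a
  rw [← mul_smul, ← op_mul, corner_right he]

theorem er_mem' {A : Type u} [AddCommGroup A] [Module Rᵐᵒᵖ A] {x : R} (hx : x * e = x) (a : A) :
    op x • a ∈ Er e A := by
  change op e • op x • a = op x • a
  rw [← mul_smul, ← op_mul, hx]

instance (A : Type u) [AddCommGroup A] [Module Rᵐᵒᵖ A] : SMul he.Cornerᵐᵒᵖ (Er e A) :=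
  ⟨fun s a => ⟨op s.unop.1 • a.1, er_mem he s.unop a.1⟩⟩

theorem er_smul {A : Type u} [AddCommGroup A] [Module Rᵐᵒᵖ A] (s : he.Cornerᵐᵒᵖ) (a : Er e A) :
    (s • a).1 = op s.unop.1 • a.1 := rfl

instance (A : Type u) [AddCommGroup A] [Module Rᵐᵒᵖ A] : Module he.Cornerᵐᵒᵖ (Er e A) where
  one_smul a := by
    apply Subtype.ext
    exact a.2
  mul_smul s t a := by
    apply Subtype.ext
    change op (t.unop.1 * s.unop.1) • a.1 = op s.unop.1 • op t.unop.1 • a.1
    rw [op_mul, mul_smul]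
  smul_zero s := by
    apply Subtype.ext
    exact smul_zero _
  smul_add s a b := by
    apply Subtype.ext
    exact smul_add _ _ _
  add_smul s t a := by
    apply Subtype.ext
    change op (s.unop.1 + t.unop.1) • a.1 = op s.unop.1 • a.1 + op t.unop.1 • a.1
    rw [op_add, add_smul]
  zero_smul a := by
    apply Subtype.ext
    change op (0 : R) • a.1 = 0
    rw [op_zero, zero_smul]

/-- restriction of a homomorphism to the `e`-parts -/
def erMap {A B : Type u} [AddCommGroup A] [Module Rᵐᵒᵖ A] [AddCommGroup B] [Module Rᵐᵒᵖ B]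
    (f : A →ₗ[Rᵐᵒᵖ] B) : Er e A →ₗ[he.Cornerᵐᵒᵖ] Er e B where
  toFun a := ⟨f a.1, by
    change op e • f a.1 = f a.1
    rw [← map_smul]
    exact congrArg f a.2⟩
  map_add' a b := by
    apply Subtype.ext
    exact map_add f _ _
  map_smul' s a := by
    apply Subtype.ext
    exact map_smul f _ _

theorem erMap_pure {A B : Type u} [AddCommGroup A] [Module Rᵐᵒᵖ A] [AddCommGroup B]
    [Module Rᵐᵒᵖ B] (f : A →ₗ[Rᵐᵒᵖ] B) (hf : IsPureEmbedding f) :
    IsPureEmbedding (erMap he f) := by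
  refine ⟨?_, ?_⟩
  · intro a b hab
    apply Subtype.ext
    exact hf.1 (congrArg Subtype.val hab)
  · rintro m n H a ⟨y, hy⟩
    obtain ⟨y', hy'⟩ := hf.2 m n (fun i j => (H i j).1) (fun j => (a j).1) (by
      refine ⟨fun i => (y i).1, fun j => ?_⟩
      have := congrArg Subtype.val (hy j)
      rw [AddSubgroup.val_finsetSum] at this
      exact this)
    refine ⟨fun i => ⟨op e • y' i, er_mem' he (y' i)⟩, fun j => ?_⟩
    apply Subtype.ext
    rw [AddSubgroup.val_finsetSum]
    refine Eq.trans ?_ (hy' j)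
    refine Finset.sum_congr rfl fun i _ => ?_
    change op (H i j).1 • op e • y' i = op (H i j).1 • y' i
    rw [← mul_smul, ← op_mul, corner_left he]

variable (N : Type u) [AddCommGroup N] [Module he.Cornerᵐᵒᵖ N]

/-- coinduced module `Hom(Re, N)` -/
def GG : AddSubgroup (R → N) where
  carrier := {f | (∀ x y, f (x + y) = f x + f y) ∧ (∀ x, f (x * e) = f x) ∧
    ∀ (x : R) (s : he.Corner), f (x * s.1) = op s • f x}
  zero_mem' := by
    refine ⟨fun x y => by simp, fun x => rfl, fun x s => ?_⟩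
    change (0 : N) = op s • (0 : N)
    rw [smul_zero]
  add_mem' := by
    rintro f g ⟨h1, h2, h3⟩ ⟨h1', h2', h3'⟩
    refine ⟨fun x y => ?_, fun x => ?_, fun x s => ?_⟩
    · simp only [Pi.add_apply, h1, h1']; abel
    · simp only [Pi.add_apply, h2, h2']
    · simp only [Pi.add_apply, h3, h3', smul_add]
  neg_mem' := by
    rintro f ⟨h1, h2, h3⟩
    refine ⟨fun x y => ?_, fun x => ?_, fun x s => ?_⟩
    · simp only [Pi.neg_apply, h1]; abel
    · simp only [Pi.neg_apply, h2]
    · simp only [Pi.neg_apply, h3, smul_neg]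

instance : SMul Rᵐᵒᵖ (GG he N) :=
  ⟨fun r f => ⟨fun x => f.1 (r.unop * x), fun x y => by
      change f.1 _ = _
      rw [mul_add, f.2.1], fun x => by
      change f.1 _ = f.1 _
      rw [← mul_assoc, f.2.2.1], fun x s => by
      change f.1 _ = _ • f.1 _
      rw [← mul_assoc, f.2.2.2]⟩⟩

variable {N}

theorem gg_smul (r : Rᵐᵒᵖ) (f : GG he N) (x : R) : (r • f).1 x = f.1 (r.unop * x) := rfl

variable (N)

instance : Module Rᵐᵒᵖ (GG he N) where
  one_smul f := by
    apply Subtype.ext; funext x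
    change f.1 (1 * x) = _
    rw [one_mul]
  mul_smul r s f := by
    apply Subtype.ext; funext x
    change f.1 (s.unop * r.unop * x) = f.1 (s.unop * (r.unop * x))
    rw [mul_assoc]
  smul_zero r := by
    apply Subtype.ext; funext x
    rfl
  smul_add r f g := by
    apply Subtype.ext; funext x
    rfl
  add_smul r s f := by
    apply Subtype.ext; funext x
    change f.1 ((r.unop + s.unop) * x) = f.1 _ + f.1 _
    rw [add_mul, f.2.1]
  zero_smul f := by
    apply Subtype.ext; funext x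
    change f.1 (0 * x) = 0
    rw [zero_mul]
    have := f.2.1 0 0
    rw [add_zero] at this
    exact left_eq_add.1 this

variable {N}

theorem gg_zero (f : GG he N) : f.1 0 = 0 := by
  have := f.2.1 0 0
  rw [add_zero] at this
  exact left_eq_add.1 this

/-- the corner element `e x e` -/
def cc (x : R) : he.Corner := mkC he (e * x * e)
  (by rw [← mul_assoc, ← mul_assoc, he.eq]) (by rw [mul_assoc, he.eq])

theorem cc_val (x : R) : (cc he x).1 = e * x * e := rfl

theorem cc_add (x y : R) : cc he (x + y) = cc he x + cc he y := by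
  apply Subtype.ext
  change e * (x + y) * e = e * x * e + e * y * e
  rw [mul_add, add_mul]

/-- the function of an element -/
def fn (n : N) : GG he N := ⟨fun x => op (cc he x) • n, fun x y => by
    change op (cc he (x + y)) • n = op (cc he x) • n + op (cc he y) • n
    rw [cc_add, op_add, add_smul], fun x => by
    change op (cc he (x * e)) • n = op (cc he x) • n
    congr 2
    apply Subtype.ext
    change e * (x * e) * e = e * x * e
    rw [← mul_assoc, mul_assoc, he.eq], fun x s => by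
    change op (cc he (x * s.1)) • n = op s • op (cc he x) • n
    rw [← mul_smul, ← op_mul]
    congr 2
    apply Subtype.ext
    change e * (x * s.1) * e = e * x * e * s.1
    calc e * (x * s.1) * e = e * x * (s.1 * e) := by noncomm_ring
      _ = e * x * (e * s.1) := by rw [corner_left he, corner_right he]
      _ = e * x * e * s.1 := by noncomm_ring⟩

theorem fn_val (n : N) (x : R) : (fn he n).1 x = op (cc he x) • n := rfl

theorem fn_e (n : N) : (fn he n).1 e = n := by
  rw [fn_val]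
  have : cc he e = 1 := by
    apply Subtype.ext
    change e * e * e = e
    rw [he.eq, he.eq]
  rw [this, op_one, one_smul]

theorem fn_apply (f : GG he N) (x : R) : fn he (f.1 x) = op (x * e) • f := by
  apply Subtype.ext; funext y
  rw [fn_val, gg_smul, ← f.2.2.2]
  change f.1 (x * (e * y * e)) = f.1 (x * e * y)
  rw [← f.2.2.1 (x * e * y)]
  noncomm_ring

theorem fn_smul (n : N) (s : he.Corner) : fn he (op s • n) = op s.1 • fn he n := by
  apply Subtype.ext; funext y
  rw [fn_val, gg_smul, fn_val, ← mul_smul, ← op_mul]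
  congr 2
  apply Subtype.ext
  change s.1 * (e * y * e) = e * (s.1 * y) * e
  calc s.1 * (e * y * e) = (s.1 * e) * y * e := by noncomm_ring
    _ = (e * s.1) * y * e := by rw [corner_left he, corner_right he]
    _ = e * (s.1 * y) * e := by noncomm_ring

theorem fn_add (n n' : N) : fn he (n + n') = fn he n + fn he n' := by
  apply Subtype.ext; funext y
  exact smul_add _ _ _

/-- every endomorphism of the coinduced module is induced -/
def eps (p : GG he N →ₗ[Rᵐᵒᵖ] GG he N) : N →ₗ[he.Cornerᵐᵒᵖ] N where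
  toFun n := (p (fn he n)).1 e
  map_add' n n' := by
    rw [fn_add, map_add]
    rfl
  map_smul' s n := by
    have h1 : s = op s.unop := (op_unop s).symm
    rw [h1, fn_smul, map_smul, gg_smul]
    change (p (fn he n)).1 (s.unop.1 * e) = op s.unop • (p (fn he n)).1 e
    rw [corner_right he, ← (p (fn he n)).2.2.2, corner_left he]

theorem eps_val (p : GG he N →ₗ[Rᵐᵒᵖ] GG he N) (n : N) : eps he p n = (p (fn he n)).1 e := rfl

theorem eps_spec (p : GG he N →ₗ[Rᵐᵒᵖ] GG he N) (f : GG he N) (x : R) :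
    (p f).1 x = eps he p (f.1 x) := by
  rw [eps_val, fn_apply, map_smul, gg_smul]
  change _ = (p f).1 (x * e * e)
  rw [(p f).2.2.1, (p f).2.2.1]

/-- induced endomorphism -/
def ind (q : N →ₗ[he.Cornerᵐᵒᵖ] N) : GG he N →ₗ[Rᵐᵒᵖ] GG he N where
  toFun f := ⟨fun x => q (f.1 x), fun x y => by
    change q _ = _
    rw [f.2.1, map_add], fun x => by
    change q _ = _
    rw [f.2.2.1], fun x s => by
    change q _ = _
    rw [f.2.2.2, map_smul]⟩
  map_add' f g := by
    apply Subtype.ext; funext x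
    exact map_add q _ _
  map_smul' r f := by
    apply Subtype.ext; funext x
    rfl

theorem ind_val (q : N →ₗ[he.Cornerᵐᵒᵖ] N) (f : GG he N) (x : R) :
    (ind he q f).1 x = q (f.1 x) := rfl

theorem gg_sdi (h : SDI he.Corner N) : SDI R (GG he N) := by
  intro p hp hp0
  have h1 : ∀ n, eps he p (eps he p n) = eps he p n := by
    intro n
    rw [eps_val he p n, ← eps_spec, hp]
  have h2 : eps he p ≠ 0 := by
    intro h0
    apply hp0
    ext1 f
    apply Subtype.ext; funext x
    rw [eps_spec, h0]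
    rfl
  obtain ⟨q, q1, q2, q3, q4, q5⟩ := h (eps he p) h1 h2
  refine ⟨ind he q, ?_, ?_, ?_, ?_, ?_⟩
  · intro f
    apply Subtype.ext; funext x
    rw [ind_val, ind_val, q1]
  · intro f
    apply Subtype.ext; funext x
    rw [eps_spec, ind_val, q2]
  · intro f
    apply Subtype.ext; funext x
    rw [ind_val, eps_spec, q3, ind_val]
  · intro h0
    apply q4
    ext1 n
    have := congrFun (congrArg Subtype.val (LinearMap.congr_fun h0 (fn he n))) e
    rw [ind_val, fn_e] at this
    exact this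
  · intro h0
    apply q5
    ext1 n
    have := congrFun (congrArg Subtype.val (LinearMap.congr_fun h0 (fn he n))) e
    rw [ind_val, fn_e] at this
    exact this

theorem gg_nontrivial [Nontrivial N] : Nontrivial (GG he N) := by
  obtain ⟨n, hn⟩ := exists_ne (0 : N)
  refine ⟨⟨fn he n, 0, fun h => hn ?_⟩⟩
  have := congrFun (congrArg Subtype.val h) e
  rw [fn_e] at this
  exact this

theorem gg_pi (h : IsPureInjective he.Corner N) : IsPureInjective R (GG he N) := by
  intro A B _ _ _ _ f hf g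
  let g0 : Er e A →ₗ[he.Cornerᵐᵒᵖ] N :=
    { toFun := fun a => (g a.1).1 e
      map_add' := fun a b => by
        change (g (a.1 + b.1)).1 e = _
        rw [map_add]
        rfl
      map_smul' := fun s a => by
        change (g (op s.unop.1 • a.1)).1 e = s • (g a.1).1 e
        rw [map_smul, gg_smul]
        change (g a.1).1 (s.unop.1 * e) = _
        rw [corner_right he]
        have := (g a.1).2.2.2 e s.unop
        rw [corner_left he] at this
        rw [this, op_unop] }
  obtain ⟨h0, hh0⟩ := h _ _ (erMap he f) (erMap_pure he f hf) g0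
  have hxe : ∀ x : R, x * e * e = x * e := fun x => by rw [mul_assoc, he.eq]
  let G : B → GG he N := fun b => ⟨fun x => h0 ⟨op (x * e) • b, er_mem' (hxe x) b⟩, by
    intro x y
    change h0 _ = h0 _ + h0 _
    rw [← map_add]
    congr 1
    apply Subtype.ext
    change op ((x + y) * e) • b = op (x * e) • b + op (y * e) • b
    rw [add_mul, op_add, add_smul], by
    intro x
    change h0 _ = h0 _
    congr 1
    apply Subtype.ext
    change op (x * e * e) • b = op (x * e) • b
    rw [hxe], by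
    intro x s
    change h0 _ = op s • h0 _
    rw [← map_smul]
    congr 1
    apply Subtype.ext
    change op (x * s.1 * e) • b = op s.1 • op (x * e) • b
    rw [← mul_smul, ← op_mul, mul_assoc, corner_right he, mul_assoc, corner_left he]⟩
  have hG : ∀ b x, (G b).1 x = h0 ⟨op (x * e) • b, er_mem' (hxe x) b⟩ := fun b x => rfl
  refine ⟨{ toFun := G, map_add' := ?_, map_smul' := ?_ }, ?_⟩
  · intro b b'
    apply Subtype.ext; funext x
    change (G (b + b')).1 x = (G b).1 x + (G b').1 x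
    rw [hG, hG, hG, ← map_add]
    congr 1
    apply Subtype.ext
    exact smul_add _ _ _
  · intro r b
    apply Subtype.ext; funext x
    change (G (r • b)).1 x = (G b).1 (r.unop * x)
    rw [hG, hG]
    congr 1
    apply Subtype.ext
    change op (x * e) • r • b = op (r.unop * x * e) • b
    rw [← mul_smul, mul_assoc, op_mul r.unop, op_unop]
  · intro a
    apply Subtype.ext; funext x
    change (G (f a)).1 x = (g a).1 x
    rw [hG]
    have h1 : (⟨op (x * e) • f a, er_mem' (hxe x) (f a)⟩ : Er e B) =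
        erMap he f ⟨op (x * e) • a, er_mem' (hxe x) a⟩ := by
      apply Subtype.ext
      exact (map_smul f _ _).symm
    rw [h1, hh0]
    change (g (op (x * e) • a)).1 e = _
    rw [map_smul, gg_smul]
    change (g a).1 (x * e * e) = _
    rw [hxe, (g a).2.2.1]

end transfer

section final

variable {R : Type u} [Ring R]

theorem sd_of_sdi {N : Type u} [AddCommGroup N] [Module Rᵐᵒᵖ N] [Nontrivial N] (h : SDI R N) :
    IsSuperdecomposable Rᵐᵒᵖ N := by
  refine ⟨inferInstance, ?_⟩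
  rintro A B hAB ⟨hnt, hind⟩
  let p : N →ₗ[Rᵐᵒᵖ] N := A.projection B hAB
  have hpA : ∀ x, p x ∈ A := fun x => Submodule.projection_apply_mem hAB x
  have hp1 : ∀ x ∈ A, p x = x := fun x hx => Submodule.projection_apply_of_mem_left hAB hx
  obtain ⟨q, q1, q2, q3, q4, q5⟩ := h p (fun x => hp1 _ (hpA x)) (by
    intro h0
    obtain ⟨a, ha⟩ := exists_ne (0 : A)
    apply ha
    apply Subtype.ext
    rw [← hp1 a a.2, h0]
    rfl)
  have hqA : ∀ x, q x ∈ A := fun x => by rw [← q2]; exact hpA _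
  let f : A →ₗ[Rᵐᵒᵖ] A := (q.comp A.subtype).codRestrict A (fun x => hqA _)
  have hf : ∀ a : A, (f a : N) = q a := fun a => rfl
  have hff : ∀ a, f (f a) = f a := by
    intro a
    apply Subtype.ext
    rw [hf, hf, q1]
  have hcompl : IsCompl (LinearMap.range f) (LinearMap.ker f) := by
    constructor
    · rw [Submodule.disjoint_def]
      rintro x ⟨y, rfl⟩ hx
      rw [LinearMap.mem_ker, hff] at hx
      exact hx
    · rw [codisjoint_iff, eq_top_iff]
      intro x _
      rw [Submodule.mem_sup]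
      refine ⟨f x, ⟨x, rfl⟩, x - f x, ?_, by abel⟩
      rw [LinearMap.mem_ker, map_sub, hff, sub_self]
  rcases hind _ _ hcompl with h1 | h1
  · apply q4
    ext1 x
    rw [← q3, LinearMap.zero_apply]
    have h2 : f ⟨p x, hpA x⟩ = 0 := by
      have h3 : f ⟨p x, hpA x⟩ ∈ LinearMap.range f := ⟨_, rfl⟩
      rw [h1] at h3
      exact (Submodule.mem_bot _).1 h3
    exact congrArg Subtype.val h2
  · apply q5
    ext1 x
    rw [← q3]
    have h2 : f ⟨p x, hpA x⟩ - ⟨p x, hpA x⟩ ∈ LinearMap.ker f := by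
      rw [LinearMap.mem_ker, map_sub, hff, sub_self]
    rw [h1, Submodule.mem_bot, sub_eq_zero] at h2
    exact congrArg Subtype.val h2

/-- Main theorem: over a serial ring without superdecomposable pure-injective modules the
lattice of two-sided ideals has Krull dimension. -/
theorem result (R : Type u) [Ring R] (hR : IsSerialRing R)
    (h : ¬ ∃ (M : Type u) (_ : AddCommGroup M) (_ : Module Rᵐᵒᵖ M),
      IsPureInjective R M ∧ IsSuperdecomposable Rᵐᵒᵖ M) :
    HasKrullDim (TwoSidedIdeal R) := by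
  by_contra hno
  apply h
  obtain ⟨I, hI⟩ := exists_dense (L := TwoSidedIdeal R) bot_le (fun h => hno h)
  obtain ⟨e, f, I1, hee, hff, hRe, hLe, hLf, hI1, hD⟩ := exists_corner hR I hI
  have he : IsIdempotentElem e := hee
  obtain ⟨I2, hI2, _⟩ := quo_chain he hff hRe hLf I1 hI1 hD
  have hl : ∀ a b : he.Corner, (∃ t, a = t * b) ∨ ∃ t, b = t * a := by
    have key : ∀ a b : he.Corner, (∃ t, a.1 = t * b.1) → ∃ t, a = t * b := by
      rintro a b ⟨t, ht⟩
      refine ⟨cc he t, ?_⟩
      apply Subtype.ext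
      change a.1 = e * t * e * b.1
      rw [mul_assoc, corner_left he, mul_assoc, ← ht, corner_left he]
    intro a b
    rcases hLe a.1 b.1 (corner_right he a) (corner_right he b) with h1 | h1
    · exact Or.inl (key a b h1)
    · exact Or.inr (key b a h1)
  have hr : ∀ a b : he.Corner, (∃ t, a = b * t) ∨ ∃ t, b = a * t := by
    have key : ∀ a b : he.Corner, (∃ t, a.1 = b.1 * t) → ∃ t, a = b * t := by
      rintro a b ⟨t, ht⟩
      refine ⟨cc he t, ?_⟩
      apply Subtype.ext
      change a.1 = b.1 * (e * t * e)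
      rw [← mul_assoc, ← mul_assoc, corner_right he, ← ht, corner_right he]
    intro a b
    rcases hRe a.1 b.1 (corner_left he a) (corner_left he b) with h1 | h1
    · exact Or.inl (key a b h1)
    · exact Or.inr (key b a h1)
  obtain ⟨I3, J3, hI3, hJ3, hIJ⟩ := two_chains hl hr I2 hI2
  obtain ⟨N, _, _, hN1, hN2, hN3⟩ := chain_exists hl hr I3 J3 hI3 hJ3 hIJ
  have := gg_nontrivial he (N := N)
  exact ⟨GG he N, inferInstance, inferInstance, gg_pi he hN1, sd_of_sdi (gg_sdi he hN3)⟩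

end final

end Pool.Agent.Results.MP_22d4f2_al.KrullTwoSided
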